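import Pool.Agent.X97.FN.Block

/-!
The hypotheses of the perturbation theorem for the superposition of the blocks.
-/

open MeasureTheory Set Filter Topology
open scoped Pointwise

namespace Pool.Agent.X97.FN

open H459R3.NS FM FM.Blk

section
variable {ι : Type*}
variable [DecidableEq ι] (J : Finset ι) (B : ι → SB) (n : ι → ℕ) (ν : ℝ)

/-- the superposition of the blocks -/
noncomputable def VV (k : K3) (t : ℝ) : C3 := ∑ i ∈ J, (B i).VS ν (n i) k t

/-- its residual -/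
noncomputable def EE (k : K3) (t : ℝ) : C3 :=
  ∑ i ∈ J, (B i).eS ν (n i) k t + ∑ i ∈ J, ∑ j ∈ J.erase i,
    Bf (fun l => (B i).VS ν (n i) l t) (fun l => (B j).VS ν (n j) l t) k

/-- the frequencies of the blocks -/
def S0 : Finset K3 := J.biUnion fun i => (B i).B.supp (n i)

/-- all frequencies -/
def S1 : Finset K3 := (S0 J B n + S0 J B n) ∪ S0 J B n

variable {J B n ν}

lemma supp_sub {i : ι} (hi : i ∈ J) : (B i).B.supp (n i) ⊆ S0 J B n :=
  Finset.subset_biUnion_of_mem (fun i => (B i).B.supp (n i)) hi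

lemma V_FS (hn : ∀ i ∈ J, n i ≠ 0) {i : ι} (hi : i ∈ J) : FS (S0 J B n) ((B i).VS ν (n i)) :=
  ((B i).VFS ν (n i) (hn i hi)).mono (supp_sub hi)

lemma VV_FS (hn : ∀ i ∈ J, n i ≠ 0) : FS (S0 J B n) (VV J B n ν) :=
  FS.fsum J fun _ hi => V_FS hn hi

lemma eB_FS (hn : ∀ i ∈ J, n i ≠ 0) {i : ι} (hi : i ∈ J) : FS (S1 J B n) ((B i).eS ν (n i)) :=
  ((B i).eFS ν (n i) (hn i hi)).mono ((Finset.add_subset_add (supp_sub hi) (supp_sub hi)).trans
    Finset.subset_union_left)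

lemma cross_FS (hn : ∀ i ∈ J, n i ≠ 0) {i : ι} (hi : i ∈ J) : FS (S1 J B n) (fun k t =>
    ∑ j ∈ J.erase i, Bf (fun l => (B i).VS ν (n i) l t) (fun l => (B j).VS ν (n j) l t) k) :=
  FS.fsum _ fun _ hj => (FS.Bf (V_FS hn hi) (V_FS hn (Finset.mem_of_mem_erase hj))).mono
    Finset.subset_union_left

lemma EE_FS (hn : ∀ i ∈ J, n i ≠ 0) : FS (S1 J B n) (EE J B n ν) :=
  (FS.fsum J fun _ hi => eB_FS hn hi).add (FS.fsum J fun _ hi => cross_FS hn hi)

lemma Bf_VV (hn : ∀ i ∈ J, n i ≠ 0) (k : K3) (t : ℝ) :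
    Bf (fun l => VV J B n ν l t) (fun l => VV J B n ν l t) k =
      ∑ i ∈ J, Bf (fun l => (B i).VS ν (n i) l t) (fun l => (B i).VS ν (n i) l t) k +
      ∑ i ∈ J, ∑ j ∈ J.erase i,
        Bf (fun l => (B i).VS ν (n i) l t) (fun l => (B j).VS ν (n j) l t) k := by
  have h1 : ∀ i ∈ J, Summable fun k => ‖(B i).VS ν (n i) k t‖ := fun i hi => (V_FS hn hi).summ' t
  have h2 : Summable fun k => ‖VV J B n ν k t‖ := (VV_FS hn).summ' t
  have e : Bf (fun l => VV J B n ν l t) (fun l => VV J B n ν l t) k =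
      ∑ i ∈ J, Bf (fun l => (B i).VS ν (n i) l t) (fun l => VV J B n ν l t) k :=
    Bf_sum_left J (f := fun i l => (B i).VS ν (n i) l t) h1 h2 k
  rw [e, ← Finset.sum_add_distrib]
  refine Finset.sum_congr rfl fun i hi => ?_
  have e2 : Bf (fun l => (B i).VS ν (n i) l t) (fun l => VV J B n ν l t) k =
      ∑ j ∈ J, Bf (fun l => (B i).VS ν (n i) l t) (fun l => (B j).VS ν (n j) l t) k :=
    Bf_sum_right J (h := fun i l => (B i).VS ν (n i) l t) (h1 i hi) h1 k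
  rw [e2, ← Finset.add_sum_erase J _ hi]

lemma VV_deriv (hn : ∀ i ∈ J, n i ≠ 0) (k : K3) (t : ℝ) :
    HasDerivAt (VV J B n ν k) (-(lam ν k • VV J B n ν k t) -
      Bf (fun l => VV J B n ν l t) (fun l => VV J B n ν l t) k + EE J B n ν k t) t := by
  have h1 : HasDerivAt (VV J B n ν k) (∑ i ∈ J, (-(lam ν k • (B i).VS ν (n i) k t) -
      Bf (fun l => (B i).VS ν (n i) l t) (fun l => (B i).VS ν (n i) l t) k +
        (B i).eS ν (n i) k t)) t :=
    HasDerivAt.fun_sum fun i hi => (B i).VS_deriv ν (n i) (hn i hi) k t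
  refine h1.congr_deriv ?_
  rw [Bf_VV hn, Finset.sum_add_distrib, Finset.sum_sub_distrib, Finset.sum_neg_distrib,
    ← Finset.smul_sum]
  unfold EE VV
  abel

lemma wS_kdot (B : SB) (ν : ℝ) (n : ℕ) (k : K3) (t : ℝ) : kdot k (B.wS ν n k t) = 0 :=
  kdot_rs (wB_kdot _ _ _ _ _) _

lemma zS_kdot (B : SB) (ν : ℝ) (n : ℕ) (k : K3) (t : ℝ) : kdot k (B.zS ν n k t) = 0 :=
  kdot_rs (zB_kdot _ _ _ _ _) _

lemma VV_kdot (k : K3) (t : ℝ) : kdot k (VV J B n ν k t) = 0 := by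
  unfold VV
  rw [kdot_sum]
  refine Finset.sum_eq_zero fun i _ => ?_
  unfold SB.VS
  rw [kdot_add, kdot_add, uB_kdot, wS_kdot, zS_kdot]
  simp

lemma EE_kdot (k : K3) (t : ℝ) : kdot k (EE J B n ν k t) = 0 := by
  unfold EE
  rw [kdot_add, kdot_sum, kdot_sum, Finset.sum_eq_zero, Finset.sum_eq_zero, add_zero]
  · intro i _
    rw [kdot_sum]
    exact Finset.sum_eq_zero fun j _ => kdot_Bf _ _ _
  · intro i _
    unfold SB.eS
    rw [kdot_add, rB_kdot, kdot_Bf, add_zero]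

lemma wS_herm (B : SB) (ν : ℝ) (n : ℕ) (t : ℝ) : Herm fun k => B.wS ν n k t :=
  herm_smul (pr_herm _ _ _ _) _

lemma zS_herm (B : SB) (ν : ℝ) (n : ℕ) (t : ℝ) : Herm fun k => B.zS ν n k t :=
  herm_smul (pr_herm _ _ _ _) _

lemma VS_herm (B : SB) (ν : ℝ) (n : ℕ) (t : ℝ) : Herm fun k => B.VS ν n k t :=
  herm_add (pr_herm _ _ _ _) (herm_add (wS_herm _ _ _ _) (zS_herm _ _ _ _))

lemma VV_herm (t : ℝ) : Herm fun k => VV J B n ν k t := herm_sum J fun i _ => VS_herm (B i) ν (n i) t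

lemma EE_herm (hn : ∀ i ∈ J, n i ≠ 0) (t : ℝ) : Herm fun k => EE J B n ν k t := by
  refine herm_add (herm_sum J fun i hi => herm_add (pr_herm _ _ _ _) ?_)
    (herm_sum J fun i hi => herm_sum _ fun j hj => ?_)
  · exact Herm_Bf (wS_herm _ _ _ _) (pr_herm _ _ _ _) (((B i).wFS ν (n i) (hn i hi)).summ' t)
      (((B i).B.uFS ν (n i)).summ' t)
  · exact Herm_Bf (VS_herm _ _ _ _) (VS_herm _ _ _ _) ((V_FS hn hi).summ' t)
      ((V_FS hn (Finset.mem_of_mem_erase hj)).summ' t)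

lemma VB_le {b C : ℝ} (hν : 0 < ν) (hn : ∀ i ∈ J, n i ≠ 0) (hC : ∀ i ∈ J, (B i).Bnd ν C)
    (hs : ∀ i ∈ J, (B i).B.Small (n i) b) {t : ℝ} (ht : 0 ≤ t) {i : ι} (hi : i ∈ J) :
    ∑' k, om b k * ‖(B i).VS ν (n i) k t‖ ≤ xx n ν C i t := by
  exact SB.VS_bd (n i) hν (hC i hi) (hn i hi) (hs i hi) ht

lemma VV_le {b C : ℝ} (hν : 0 < ν) (hn : ∀ i ∈ J, n i ≠ 0) (hC : ∀ i ∈ J, (B i).Bnd ν C)
    (hs : ∀ i ∈ J, (B i).B.Small (n i) b) {t : ℝ} (ht : 0 ≤ t) :
    ∑' k, om b k * ‖VV J B n ν k t‖ ≤ ∑ i ∈ J, xx n ν C i t :=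
  (tsum_norm_sum_le J (fun _ hi => V_FS hn hi) (om b) (fun k => (om_pos b k).le) t).trans
    (Finset.sum_le_sum fun _ hi => VB_le hν hn hC hs ht hi)

lemma EE_le {b C : ℝ} (hb : 0 ≤ b) (hν : 0 < ν) (hn : ∀ i ∈ J, n i ≠ 0)
    (hC0 : 0 ≤ C) (hC : ∀ i ∈ J, (B i).Bnd ν C)
    (hs : ∀ i ∈ J, (B i).B.Small (n i) b) {t : ℝ} (ht : 0 ≤ t) :
    ∑' k, FM.mk b k * ‖EE J B n ν k t‖ ≤
      ∑ i ∈ J, (8 * C + 1216 * C ^ 2) * n i * ex ν (n i) t +
      ∑ i ∈ J, ∑ j ∈ J.erase i, 76 * (xx n ν C i t * xx n ν C j t) := by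
  have f1 := FS.fsum J (g := fun i => (B i).eS ν (n i)) fun _ hi => eB_FS hn hi
  have f2 := FS.fsum J (g := fun i k t => ∑ j ∈ J.erase i,
    Bf (fun l => (B i).VS ν (n i) l t) (fun l => (B j).VS ν (n j) l t) k) fun _ hi => cross_FS hn hi
  have h := ((EE_FS (B := B) (ν := ν) hn).summ (FM.mk b) t).tsum_le_tsum (fun k => (?_ : _ ≤
    FM.mk b k * ‖∑ i ∈ J, (B i).eS ν (n i) k t‖ + FM.mk b k * ‖∑ i ∈ J, ∑ j ∈ J.erase i,
      Bf (fun l => (B i).VS ν (n i) l t) (fun l => (B j).VS ν (n j) l t) k‖))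
    ((f1.summ (FM.mk b) t).add (f2.summ (FM.mk b) t))
  · rw [(f1.summ (FM.mk b) t).tsum_add (f2.summ (FM.mk b) t)] at h
    refine h.trans (add_le_add ?_ ?_)
    · refine (tsum_norm_sum_le J (fun _ hi => eB_FS hn hi) (FM.mk b) (mk_nonneg b) t).trans ?_
      exact Finset.sum_le_sum fun i hi => SB.eS_bd (n i) hb hν (hC i hi) (hn i hi) (hs i hi) ht
    · refine (tsum_norm_sum_le J (fun _ hi => cross_FS hn hi) (FM.mk b) (mk_nonneg b) t).trans ?_
      refine Finset.sum_le_sum fun i hi => ?_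
      refine (tsum_norm_sum_le (J.erase i) (fun j hj => (FS.Bf (V_FS hn hi)
        (V_FS hn (Finset.mem_of_mem_erase hj)))) (FM.mk b) (mk_nonneg b) t).trans ?_
      refine Finset.sum_le_sum fun j hj => ?_
      have hj' := Finset.mem_of_mem_erase hj
      refine (tsum_mk_Bf hb ((V_FS hn hi).summ (om b) t) ((V_FS hn hj').summ (om b) t)).trans ?_
      refine mul_le_mul_of_nonneg_left ?_ (by norm_num)
      exact mul_le_mul (VB_le hν hn hC hs ht hi) (VB_le hν hn hC hs ht hj')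
        (tsum_nonneg fun k => mul_nonneg (om_pos b k).le (norm_nonneg _)) (xx_nonneg hC0 i t)
  · rw [← mul_add]
    exact mul_le_mul_of_nonneg_left (norm_add_le _ _) (mk_nonneg b k)
lemma DD_EE_le {b C M R : ℝ} {φ : ℝ → ℝ} (hb : 0 ≤ b) (hν : 0 < ν) (hn : ∀ i ∈ J, n i ≠ 0)
    (hC0 : 0 ≤ C) (hC : ∀ i ∈ J, (B i).Bnd ν C) (hs : ∀ i ∈ J, (B i).B.Small (n i) b)
    (hM : 0 ≤ M) (hφ : Continuous φ) (h0 : ∀ t, 0 ≤ φ t) (hR : 0 < R)
    (hRn : ∀ i ∈ J, R ≤ n i) (hlac : ∀ i ∈ J, ∀ j ∈ J, i ≠ j →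
      R * ((n i : ℝ) * n j) ≤ (n i : ℝ) ^ 2 + (n j : ℝ) ^ 2) {t : ℝ} (ht : 0 ≤ t) :
    DD b M φ t (EE J B n ν) ≤ eta J.card C ν R := by
  have hc := cc_pos hν
  have hρ := rho_continuous M hφ
  have fE := EE_FS (B := B) (ν := ν) hn
  rw [DD_int hφ fE]
  have cE : Continuous fun s => ∑' k, FM.mk b k * ‖EE J B n ν k s‖ :=
    tsum_cont (S := S1 J B n) (fun k => by have := fE.cont k; fun_prop)
      (fun k hk s => by rw [fE.supp k hk]; simp)
  have c1 : Continuous fun s => ∑ i ∈ J, (8 * C + 1216 * C ^ 2) * n i * ex ν (n i) s :=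
    continuous_finsetSum _ fun i _ => continuous_const.mul (ex_cont ν (n i))
  have c2 : Continuous fun s => ∑ i ∈ J, ∑ j ∈ J.erase i, 76 * (xx n ν C i s * xx n ν C j s) :=
    continuous_finsetSum _ fun i _ => continuous_finsetSum _ fun j _ =>
      continuous_const.mul ((xx_cont C i).mul (xx_cont C j))
  have h1 : ∫ s in (0:ℝ)..t, rho M φ s * ∑' k, FM.mk b k * ‖EE J B n ν k s‖ ≤
      ∫ s in (0:ℝ)..t, (∑ i ∈ J, (8 * C + 1216 * C ^ 2) * n i * ex ν (n i) s +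
        ∑ i ∈ J, ∑ j ∈ J.erase i, 76 * (xx n ν C i s * xx n ν C j s)) := by
    refine intervalIntegral.integral_mono_on ht ((hρ.mul cE).intervalIntegrable _ _)
      ((c1.add c2).intervalIntegrable _ _) fun s hs' => ?_
    have a1 := EE_le hb hν hn hC0 hC hs hs'.1
    have a2 := rho_le_one hM h0 hs'.1
    have a3 : 0 ≤ ∑' k, FM.mk b k * ‖EE J B n ν k s‖ :=
      tsum_nonneg fun k => mul_nonneg (mk_nonneg b k) (norm_nonneg _)
    calc rho M φ s * ∑' k, FM.mk b k * ‖EE J B n ν k s‖ ≤ 1 * ∑' k, FM.mk b k * ‖EE J B n ν k s‖ := by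
          gcongr
      _ ≤ _ := by rw [one_mul]; exact a1
  refine h1.trans ?_
  rw [intervalIntegral.integral_add (c1.intervalIntegrable _ _) (c2.intervalIntegrable _ _),
    int_fsum J (f := fun i s => (8 * C + 1216 * C ^ 2) * n i * ex ν (n i) s)
      (fun i _ => continuous_const.mul (ex_cont ν (n i))),
    int_fsum J (f := fun i s => ∑ j ∈ J.erase i, 76 * (xx n ν C i s * xx n ν C j s))
      (fun i _ => continuous_finsetSum _ fun j _ =>
        continuous_const.mul ((xx_cont C i).mul (xx_cont C j)))]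
  have p0 : ∀ i ∈ J, (0 : ℝ) < n i := fun i hi => by exact_mod_cast Nat.pos_of_ne_zero (hn i hi)
  have b1 : ∀ i ∈ J, ∫ s in (0:ℝ)..t, (8 * C + 1216 * C ^ 2) * n i * ex ν (n i) s ≤
      (8 * C + 1216 * C ^ 2) / (cc ν * R) := by
    intro i hi
    rw [intervalIntegral.integral_const_mul]
    have h3 := int_ex_le (ν := ν) hν (hn i hi) ht
    have h4 := p0 i hi
    have h5 := hRn i hi
    calc (8 * C + 1216 * C ^ 2) * n i * ∫ s in (0:ℝ)..t, ex ν (n i) s ≤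
        (8 * C + 1216 * C ^ 2) * n i * (1 / (cc ν * (n i : ℝ) ^ 2)) := by gcongr
      _ = (8 * C + 1216 * C ^ 2) / (cc ν * n i) := by field_simp
      _ ≤ _ := by gcongr
  have b2 : ∀ i ∈ J, ∀ j ∈ J.erase i, ∫ s in (0:ℝ)..t, 76 * (xx n ν C i s * xx n ν C j s) ≤
      (10944 * C ^ 2) / (cc ν * R) := by
    intro i hi j hj
    have hj' := Finset.mem_of_mem_erase hj
    have hij : i ≠ j := (Finset.ne_of_mem_erase hj).symm
    have e : ∀ s, 76 * (xx n ν C i s * xx n ν C j s) =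
        10944 * C ^ 2 * ((n i : ℝ) * n j) * (ex ν (n i) s * ex ν (n j) s) := by
      intro s
      unfold xx
      ring
    simp only [e]
    rw [intervalIntegral.integral_const_mul]
    have h3 := int_ex_ex_le (ν := ν) hν (m' := n j) (hn i hi) ht
    have h4 := p0 i hi
    have h4' := p0 j hj'
    have h5 := hlac i hi j hj' hij
    calc 10944 * C ^ 2 * ((n i : ℝ) * n j) * ∫ s in (0:ℝ)..t, ex ν (n i) s * ex ν (n j) s ≤
        10944 * C ^ 2 * ((n i : ℝ) * n j) * (1 / (cc ν * ((n i : ℝ) ^ 2 + (n j : ℝ) ^ 2))) := by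
          gcongr
      _ = 10944 * C ^ 2 * (((n i : ℝ) * n j) / (cc ν * ((n i : ℝ) ^ 2 + (n j : ℝ) ^ 2))) := by ring
      _ ≤ 10944 * C ^ 2 * (1 / (cc ν * R)) := by
          refine mul_le_mul_of_nonneg_left ?_ (by positivity)
          rw [div_le_div_iff₀ (by positivity) (by positivity)]
          have := mul_le_mul_of_nonneg_left h5 hc.le
          linarith
      _ = _ := by ring
  have e1 : ∑ i ∈ J, ∫ s in (0:ℝ)..t, (8 * C + 1216 * C ^ 2) * n i * ex ν (n i) s ≤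
      (J.card : ℝ) * ((8 * C + 1216 * C ^ 2) / (cc ν * R)) := by
    refine (Finset.sum_le_sum b1).trans (le_of_eq ?_)
    rw [Finset.sum_const, nsmul_eq_mul]
  have e2 : ∑ i ∈ J, ∫ s in (0:ℝ)..t, ∑ j ∈ J.erase i, 76 * (xx n ν C i s * xx n ν C j s) ≤
      (J.card : ℝ) ^ 2 * ((10944 * C ^ 2) / (cc ν * R)) := by
    have : ∀ i ∈ J, ∫ s in (0:ℝ)..t, ∑ j ∈ J.erase i, 76 * (xx n ν C i s * xx n ν C j s) ≤
        (J.card : ℝ) * ((10944 * C ^ 2) / (cc ν * R)) := by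
      intro i hi
      rw [int_fsum (J.erase i) (f := fun j s => 76 * (xx n ν C i s * xx n ν C j s))
        (fun j _ => continuous_const.mul ((xx_cont C i).mul (xx_cont C j)))]
      refine (Finset.sum_le_sum (b2 i hi)).trans ?_
      rw [Finset.sum_const, nsmul_eq_mul]
      have : ((J.erase i).card : ℝ) ≤ J.card := by
        exact_mod_cast Finset.card_le_card (Finset.erase_subset i J)
      have : 0 ≤ (10944 * C ^ 2) / (cc ν * R) := by positivity
      gcongr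
    refine (Finset.sum_le_sum this).trans (le_of_eq ?_)
    rw [Finset.sum_const, nsmul_eq_mul]
    ring
  unfold eta
  refine (add_le_add e1 e2).trans (le_of_eq ?_)
  ring
theorem setup {b C R : ℝ} (hb : 0 < b) (hν : 0 < ν) (hn : ∀ i ∈ J, n i ≠ 0)
    (hC0 : 0 ≤ C) (hC : ∀ i ∈ J, (B i).Bnd ν C) (hs : ∀ i ∈ J, (B i).B.Small (n i) b)
    (hR : 0 < R) (hRn : ∀ i ∈ J, R ≤ n i) (hlac : ∀ i ∈ J, ∀ j ∈ J, i ≠ j →
      R * ((n i : ℝ) * n j) ≤ (n i : ℝ) ^ 2 + (n j : ℝ) ^ 2)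
    (hbig : eta J.card C ν R ≤ ν * rin J.card C ν / 32) :
    Setup ν b (2400 / ν) (rin J.card C ν) (eta J.card C ν R) (∑ i ∈ J, 12 * C * n i)
      (phi J n ν C) (S1 J B n) (VV J B n ν) (EE J B n ν) where
  hν := hν
  hb := hb
  hMν := by field_simp
  hφ := phi_cont C
  h0 := fun t => sq_nonneg _
  hr := Real.exp_pos _
  hrt := by
    intro t ht
    unfold rin rho
    apply Real.exp_le_exp.2
    have := int_phi_le (C := C) hν hn ht
    have h2 : 0 ≤ 2400 / ν := by positivity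
    have := mul_le_mul_of_nonneg_left this h2
    linarith
  hV := (VV_FS hn).mono Finset.subset_union_right
  hE := EE_FS hn
  hVφ := by
    intro s hs'
    unfold phi
    rw [Real.sqrt_sq (Finset.sum_nonneg fun i _ => xx_nonneg hC0 i s)]
    exact VV_le hν hn hC hs hs'
  hCV := by
    intro k s hs'
    have h1 := (VV_le hν hn hC hs hs' : ∑' k, om b k * ‖VV J B n ν k s‖ ≤ _)
    have h2 := ((VV_FS (ν := ν) (B := B) hn).summ (om b) s).le_tsum k fun j _ =>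
      mul_nonneg (om_pos b j).le (norm_nonneg _)
    have h3 := one_le_om hb.le k
    have h4 : ∑ i ∈ J, xx n ν C i s ≤ ∑ i ∈ J, 12 * C * n i := by
      refine Finset.sum_le_sum fun i _ => ?_
      unfold xx
      have := ex_le_one hν (n i) hs'
      have h5 : 0 ≤ 12 * C * (n i : ℝ) := by positivity
      calc 12 * C * n i * ex ν (n i) s ≤ 12 * C * n i * 1 := by gcongr
        _ = _ := mul_one _
    have h6 := norm_nonneg (VV J B n ν k s)
    nlinarith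
  hη := fun t ht => DD_EE_le hb.le hν hn hC0 hC hs (by positivity) (phi_cont C)
    (fun t => sq_nonneg _) hR hRn hlac ht
  hη2 := hbig
  divV := VV_kdot
  divE := EE_kdot
  hermV := VV_herm
  hermE := EE_herm hn

end

end Pool.Agent.X97.FN
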