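import Pool.Agent.X97.FM.Main

/-!
Blocks whose two plane waves carry different sizes.
-/

open MeasureTheory Set Filter Topology
open scoped Pointwise

namespace Pool.Agent.X97.FN

open H459R3.NS FM FM.Blk

lemma Qf_smul_left (c : ℝ) (f h : K3 → C3) (k : K3) : Qf (fun l => c • f l) h k = (c : ℂ) • Qf f h k := by
  unfold Qf
  rw [← tsum_const_smul'']
  exact tsum_congr fun l => by rw [kdot_rsmul, mul_smul]

lemma Qf_smul_right (c : ℝ) (f h : K3 → C3) (k : K3) : Qf f (fun l => c • h l) k = (c : ℂ) • Qf f h k := by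
  unfold Qf
  rw [← tsum_const_smul'']
  refine tsum_congr fun l => ?_
  rw [smul_comm ((c : ℂ))]
  congr 1

lemma Bf_smul_left (c : ℝ) (f h : K3 → C3) (k : K3) : Bf (fun l => c • f l) h k = c • Bf f h k := by
  unfold Bf
  rw [Qf_smul_left, smul_comm, lp_smul]
  rfl

lemma Bf_smul_right (c : ℝ) (f h : K3 → C3) (k : K3) : Bf f (fun l => c • h l) k = c • Bf f h k := by
  unfold Bf
  rw [Qf_smul_right, smul_comm, lp_smul]
  rfl

/-- a block with the ratio of the sizes of the waves -/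
structure SB where
  /-- the block -/
  B : Blk
  /-- the factor of the first wave -/
  s : ℝ
  hs : 0 < s

lemma FS_smul {S : Finset K3} {g : K3 → ℝ → C3} (hg : FS S g) (c : ℝ) : FS S (fun k t => c • g k t) :=
  ⟨fun k => (hg.cont k).const_smul c, fun k hk t => by rw [hg.supp k hk, smul_zero],
    fun t => by rw [hg.zero, smul_zero]⟩

lemma kdot_rs {k : K3} {v : C3} (h : kdot k v = 0) (c : ℝ) : kdot k (c • v) = 0 := by
  rw [kdot_rsmul, h, mul_zero]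

lemma herm_smul {f : K3 → C3} (hf : Herm f) (c : ℝ) : Herm fun k => c • f k := by
  intro k
  show c • f (-k) = cj (c • f k)
  rw [hf k, cj_smul_real]

namespace SB

variable (ν : ℝ) (B : SB) (n : ℕ)

/-- the first wave -/
noncomputable def wS (k : K3) (t : ℝ) : C3 := B.s • B.B.wB ν n k t

/-- the second wave -/
noncomputable def zS (k : K3) (t : ℝ) : C3 := B.s⁻¹ • B.B.zB ν n k t

/-- the block -/
noncomputable def VS (k : K3) (t : ℝ) : C3 := B.B.uB ν n k t + (B.wS ν n k t + B.zS ν n k t)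

lemma wFS (hn : n ≠ 0) : FS (B.B.supp n) (B.wS ν n) := FS_smul (B.B.wFS ν n hn) _

lemma zFS : FS (B.B.supp n) (B.zS ν n) := FS_smul (B.B.zFS ν n) _

lemma VFS (hn : n ≠ 0) : FS (B.B.supp n) (B.VS ν n) :=
  (B.B.uFS ν n).add ((B.wFS ν n hn).add (B.zFS ν n))

lemma VS_self (hn : n ≠ 0) (t : ℝ) (k : K3) :
    Bf (fun l => B.VS ν n l t) (fun l => B.VS ν n l t) k =
      Bf (fun l => B.B.wB ν n l t) (fun l => B.B.zB ν n l t) k +
        Bf (fun l => B.wS ν n l t) (fun l => B.B.uB ν n l t) k := by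
  have su := (B.B.uFS ν n).summ' t
  have sw := (B.wFS ν n hn).summ' t
  have sz := (B.zFS ν n).summ' t
  have swz := ((B.wFS ν n hn).add (B.zFS ν n)).summ' t
  have sV := (B.VFS ν n hn).summ' t
  have h1 : Bf (fun l => B.B.uB ν n l t) (fun l => B.VS ν n l t) k = 0 := by
    have e : (fun l => B.VS ν n l t) = fun l => B.B.uB ν n l t + (B.wS ν n l t + B.zS ν n l t) := rfl
    rw [e, Bf_add_right su su swz, Bf_add_right su sw sz]
    unfold wS zS
    rw [Bf_smul_right, Bf_smul_right]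
    unfold uB wB zB
    rw [B.B.Bf_a_zero B.B.hla B.B.hla, B.B.Bf_a_zero B.B.hla (B.B.kk_a n),
      B.B.Bf_a_zero B.B.hla (B.B.kkl_a n)]
    simp
  have h2 : Bf (fun l => B.zS ν n l t) (fun l => B.VS ν n l t) k = 0 := by
    have e : (fun l => B.VS ν n l t) = fun l => B.B.uB ν n l t + (B.wS ν n l t + B.zS ν n l t) := rfl
    rw [e, Bf_add_right sz su swz, Bf_add_right sz sw sz]
    unfold wS zS
    rw [Bf_smul_right, Bf_smul_right, Bf_smul_left, Bf_smul_left, Bf_smul_left]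
    unfold uB wB zB
    rw [B.B.Bf_a_zero (B.B.kkl_a n) B.B.hla, B.B.Bf_a_zero (B.B.kkl_a n) (B.B.kk_a n),
      B.B.Bf_a_zero (B.B.kkl_a n) (B.B.kkl_a n)]
    simp
  have h3 : Bf (fun l => B.wS ν n l t) (fun l => B.VS ν n l t) k =
      Bf (fun l => B.wS ν n l t) (fun l => B.B.uB ν n l t) k +
        Bf (fun l => B.B.wB ν n l t) (fun l => B.B.zB ν n l t) k := by
    have e : (fun l => B.VS ν n l t) = fun l => B.B.uB ν n l t + (B.wS ν n l t + B.zS ν n l t) := rfl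
    have e1 : Bf (fun l => B.wS ν n l t) (fun l => B.wS ν n l t) k = 0 := by
      unfold wS
      rw [Bf_smul_right, Bf_smul_left, B.B.Bf_ww]
      simp
    have e2 : Bf (fun l => B.wS ν n l t) (fun l => B.zS ν n l t) k =
        Bf (fun l => B.B.wB ν n l t) (fun l => B.B.zB ν n l t) k := by
      unfold wS zS
      rw [Bf_smul_right, Bf_smul_left, smul_smul, inv_mul_cancel₀ B.hs.ne', one_smul]
    rw [e, Bf_add_right sw su swz, Bf_add_right sw sw sz, e1, e2, zero_add]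
  have e : Bf (fun l => B.VS ν n l t) (fun l => B.VS ν n l t) k =
      Bf (fun l => B.B.uB ν n l t + (B.wS ν n l t + B.zS ν n l t)) (fun l => B.VS ν n l t) k := rfl
  rw [e, Bf_add_left su swz sV, Bf_add_left sw sz sV, h1, h2, h3]
  abel

/-- the residual of a single block -/
noncomputable def eS (k : K3) (t : ℝ) : C3 :=
  B.B.rB ν n k t + Bf (fun l => B.wS ν n l t) (fun l => B.B.uB ν n l t) k

lemma VS_deriv (hn : n ≠ 0) (k : K3) (t : ℝ) :
    HasDerivAt (B.VS ν n k) (-(lam ν k • B.VS ν n k t) -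
      Bf (fun l => B.VS ν n l t) (fun l => B.VS ν n l t) k + B.eS ν n k t) t := by
  have h1 := (pr_deriv B.B.l ((1 / 2 * B.B.A) • cz B.B.a) (B.B.Gam ν n) k t).add
    (((pr_deriv (B.B.kk n) ((n / 2 : ℂ) • cz B.B.l) (lam ν (B.B.kk n)) k t).const_smul B.s).add
      ((pr_deriv (B.B.kk n + B.B.l) ((n / 2 * B.B.bet ν) • cz B.B.a)
        (lam ν (B.B.kk n + B.B.l)) k t).const_smul B.s⁻¹))
  refine h1.congr_deriv ?_
  rw [B.VS_self ν n hn]
  unfold eS
  rw [← B.B.main_block ν n k t]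
  have e : lam ν k • B.VS ν n k t = lam ν k • B.B.uB ν n k t +
      (B.s • lam ν (B.B.kk n) • B.B.wB ν n k t + B.s⁻¹ • lam ν (B.B.kk n + B.B.l) • B.B.zB ν n k t) := by
    unfold VS wS zS
    rw [smul_add, smul_add, smul_comm (lam ν k) B.s, smul_comm (lam ν k) B.s⁻¹]
    unfold wB zB
    rw [lam_pr, lam_pr]
  rw [e]
  unfold uB wB zB
  rw [smul_neg, smul_neg]
  abel

lemma eFS (hn : n ≠ 0) : FS (B.B.supp n + B.B.supp n) (B.eS ν n) :=
  (B.B.rFS ν n).add (FS.Bf (B.wFS ν n hn) (B.B.uFS ν n))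

/-- the bounds of a block -/
structure Bnd (C : ℝ) : Prop where
  h1 : ‖B.B.A‖ * N B.B.a ≤ C
  h2 : B.s * N B.B.l ≤ C
  h3 : B.s⁻¹ * (‖B.B.bet ν‖ * N B.B.a) ≤ C
  h4 : cc ν * (FM.sq B.B.l * FM.sq B.B.a) * ‖B.B.A‖ * N B.B.a ≤ C

variable {ν B}

lemma uS_bd {b C : ℝ} (hν : 0 < ν) (hC : B.Bnd ν C) (hs : B.B.Small n b) {t : ℝ} (ht : 0 ≤ t) :
    ∑' k, om b k * ‖B.B.uB ν n k t‖ ≤ 4 * C * ex ν n t := by
  have hv : ‖(1 / 2 * B.B.A) • cz B.B.a‖ ≤ C := by
    refine (norm_smul_cz_le _ _).trans (le_trans ?_ hC.h1)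
    have : ‖(1 / 2 * B.B.A : ℂ)‖ ≤ ‖B.B.A‖ := by
      rw [norm_mul]
      have : ‖(1 / 2 : ℂ)‖ = 1 / 2 := by norm_num
      rw [this]
      linarith [norm_nonneg B.B.A]
    gcongr
  refine (pr_bd (b := b) n B.B.l _ ht (B.B.Gam_rate n hν) (om b) (fun k => (om_pos b k).le)
    (om_neg b _) hs.1 hv).trans (le_of_eq (by ring))

lemma tsum_smul_norm (w : K3 → ℝ) (c : ℝ) (hc : 0 ≤ c) (f : K3 → C3) :
    ∑' k, w k * ‖c • f k‖ = c * ∑' k, w k * ‖f k‖ := by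
  rw [← tsum_mul_left]
  exact tsum_congr fun k => by rw [norm_smul, Real.norm_of_nonneg hc]; ring

/-- the first wave with a general weight -/
lemma wS_gen {D w : ℝ} (hν : 0 < ν) (hD : B.s * N B.B.l ≤ D) {f : K3 → ℝ} (hf : ∀ k, 0 ≤ f k)
    (hfm : f (-B.B.kk n) = f (B.B.kk n)) (hw : f (B.B.kk n) ≤ w) {t : ℝ} (ht : 0 ≤ t) :
    ∑' k, f k * ‖B.wS ν n k t‖ ≤ w * (D * n * ex ν n t) := by
  have hs := B.hs
  have h := pr_bd (b := 0) n (B.B.kk n) ((n / 2 : ℂ) • cz B.B.l) (D := n / 2 * N B.B.l) ht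
    (B.B.kk_rate n hν) f hf hfm hw (by
      refine (norm_smul_cz_le _ _).trans (le_of_eq ?_)
      rw [norm_div, Complex.norm_natCast]
      norm_num)
  unfold wS
  rw [tsum_smul_norm f B.s B.hs.le]
  have hw0 : 0 ≤ w := (hf _).trans hw
  have he := ex_pos ν n t
  calc B.s * ∑' k, f k * ‖B.B.wB ν n k t‖ ≤ B.s * (2 * (w * (n / 2 * N B.B.l * ex ν n t))) :=
        mul_le_mul_of_nonneg_left h hs.le
    _ = w * ((B.s * N B.B.l) * n * ex ν n t) := by ring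
    _ ≤ w * (D * n * ex ν n t) := by gcongr

/-- the second wave with a general weight -/
lemma zS_gen {D w : ℝ} (hν : 0 < ν) (hD : B.s⁻¹ * (‖B.B.bet ν‖ * N B.B.a) ≤ D) {f : K3 → ℝ}
    (hf : ∀ k, 0 ≤ f k) (hfm : f (-(B.B.kk n + B.B.l)) = f (B.B.kk n + B.B.l))
    (hw : f (B.B.kk n + B.B.l) ≤ w) {t : ℝ} (ht : 0 ≤ t) :
    ∑' k, f k * ‖B.zS ν n k t‖ ≤ w * (D * n * ex ν n t) := by
  have hs := B.hs
  have h := pr_bd (b := 0) n (B.B.kk n + B.B.l) ((n / 2 * B.B.bet ν) • cz B.B.a)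
    (D := n / 2 * (‖B.B.bet ν‖ * N B.B.a)) ht (B.B.kkl_rate n hν) f hf hfm hw (by
      refine (norm_smul_cz_le _ _).trans (le_of_eq ?_)
      rw [norm_mul, norm_div, Complex.norm_natCast]
      norm_num
      ring)
  unfold zS
  rw [tsum_smul_norm f B.s⁻¹ (inv_nonneg.2 B.hs.le)]
  have hw0 : 0 ≤ w := (hf _).trans hw
  have he := ex_pos ν n t
  calc B.s⁻¹ * ∑' k, f k * ‖B.B.zB ν n k t‖ ≤
        B.s⁻¹ * (2 * (w * (n / 2 * (‖B.B.bet ν‖ * N B.B.a) * ex ν n t))) :=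
        mul_le_mul_of_nonneg_left h (inv_nonneg.2 hs.le)
    _ = w * ((B.s⁻¹ * (‖B.B.bet ν‖ * N B.B.a)) * n * ex ν n t) := by ring
    _ ≤ w * (D * n * ex ν n t) := by gcongr

lemma wS_bd {b C : ℝ} (hν : 0 < ν) (hC : B.Bnd ν C) (hs : B.B.Small n b) {t : ℝ} (ht : 0 ≤ t) :
    ∑' k, om b k * ‖B.wS ν n k t‖ ≤ 2 * C * n * ex ν n t := by
  refine (wS_gen n hν hC.h2 (fun k => (om_pos b k).le) (om_neg b _) hs.2.1 ht).trans (le_of_eq ?_)
  ring

lemma zS_bd {b C : ℝ} (hν : 0 < ν) (hC : B.Bnd ν C) (hs : B.B.Small n b) {t : ℝ} (ht : 0 ≤ t) :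
    ∑' k, om b k * ‖B.zS ν n k t‖ ≤ 2 * C * n * ex ν n t := by
  refine (zS_gen n hν hC.h3 (fun k => (om_pos b k).le) (om_neg b _) hs.2.2 ht).trans (le_of_eq ?_)
  ring

lemma Bnd.C_nonneg {C : ℝ} (hC : B.Bnd ν C) : 0 ≤ C := le_trans (by positivity) hC.h1

lemma VS_bd {b C : ℝ} (hν : 0 < ν) (hC : B.Bnd ν C) (hn : n ≠ 0) (hs : B.B.Small n b) {t : ℝ}
    (ht : 0 ≤ t) : ∑' k, om b k * ‖B.VS ν n k t‖ ≤ 12 * C * n * ex ν n t := by
  have hu := (B.B.uFS ν n).summ (om b) t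
  have hw := (B.wFS ν n hn).summ (om b) t
  have hz := (B.zFS ν n).summ (om b) t
  have h := ((B.VFS ν n hn).summ (om b) t).tsum_le_tsum (fun k => (?_ : _ ≤
    om b k * ‖B.B.uB ν n k t‖ + (om b k * ‖B.wS ν n k t‖ + om b k * ‖B.zS ν n k t‖)))
    (hu.add (hw.add hz))
  · rw [hu.tsum_add (hw.add hz), hw.tsum_add hz] at h
    have h1 := uS_bd n hν hC hs ht
    have h2 := wS_bd n hν hC hs ht
    have h3 := zS_bd n hν hC hs ht
    have h4 : (1 : ℝ) ≤ n := by exact_mod_cast Nat.one_le_iff_ne_zero.2 hn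
    have h5 := mul_nonneg hC.C_nonneg (ex_pos ν n t).le
    nlinarith
  · rw [← mul_add, ← mul_add]
    refine mul_le_mul_of_nonneg_left ?_ (om_pos b k).le
    exact (norm_add_le _ _).trans (add_le_add le_rfl (norm_add_le _ _))

lemma rS_bd {b C : ℝ} (hb : 0 ≤ b) (hν : 0 < ν) (hC : B.Bnd ν C) (hn : n ≠ 0)
    (hs : B.B.Small n b) {t : ℝ} (ht : 0 ≤ t) :
    ∑' k, FM.mk b k * ‖B.B.rB ν n k t‖ ≤ 8 * C * n * ex ν n t := by
  have hv : ‖(((lam ν (B.B.kk n) : ℝ) : ℂ) * B.B.A) • cz B.B.a‖ ≤ C * (n : ℝ) ^ 2 := by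
    refine (norm_smul_cz_le _ _).trans ?_
    rw [norm_mul, Complex.norm_real, Real.norm_of_nonneg (lam_nonneg hν.le _), lam_kk]
    have := hC.h4
    have h2 : (0 : ℝ) ≤ (n : ℝ) ^ 2 := by positivity
    have h3 := mul_le_mul_of_nonneg_right this h2
    unfold cc at h3
    refine le_trans (le_of_eq ?_) h3
    ring
  have hn0 : (0 : ℝ) < n := by exact_mod_cast Nat.pos_of_ne_zero hn
  have hm : FM.mk b (B.B.kk n + (B.B.kk n + B.B.l)) ≤ 4 / n := by
    unfold FM.mk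
    have h1 : om b (B.B.kk n + (B.B.kk n + B.B.l)) ≤ om b (B.B.kk n) * om b (B.B.kk n + B.B.l) := by
      have := om_le hb (B.B.kk n + (B.B.kk n + B.B.l)) (B.B.kk n + B.B.l)
      rwa [add_sub_cancel_right] at this
    have h2 : om b (B.B.kk n + (B.B.kk n + B.B.l)) ≤ 4 := by
      have := om_pos b (B.B.kk n)
      have := om_pos b (B.B.kk n + B.B.l)
      have := hs.2.1
      have := hs.2.2
      nlinarith
    have h3 := B.B.N_kk2 n
    exact div_le_div₀ (by norm_num) h2 hn0 h3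
  refine (pr_bd (b := b) n _ _ ht (B.B.Gam_rate n hν) (FM.mk b) (fun k => mk_nonneg b k)
    (mk_neg b _) hm hv).trans (le_of_eq ?_)
  field_simp
  ring

lemma eS_bd {b C : ℝ} (hb : 0 ≤ b) (hν : 0 < ν) (hC : B.Bnd ν C) (hn : n ≠ 0)
    (hs : B.B.Small n b) {t : ℝ} (ht : 0 ≤ t) :
    ∑' k, FM.mk b k * ‖B.eS ν n k t‖ ≤ (8 * C + 1216 * C ^ 2) * n * ex ν n t := by
  have hu := (B.B.uFS ν n).summ (om b) t
  have hw := (B.wFS ν n hn).summ (om b) t
  have h1 := rS_bd n hb hν hC hn hs ht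
  have h2 := tsum_mk_Bf hb hw hu
  have s1 := (B.B.rFS ν n).summ (FM.mk b) t
  have s2 := summable_mk_Bf hb hw hu
  have h := ((B.eFS ν n hn).summ (FM.mk b) t).tsum_le_tsum (fun k => (?_ : _ ≤
    FM.mk b k * ‖B.B.rB ν n k t‖ + FM.mk b k * ‖Bf (fun l => B.wS ν n l t) (fun l => B.B.uB ν n l t) k‖))
    (s1.add s2)
  · rw [s1.tsum_add s2] at h
    have h3 := uS_bd n hν hC hs ht
    have h4 := wS_bd n hν hC hs ht
    have hC' := hC.C_nonneg
    have he := ex_pos ν n t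
    have he1 := ex_le_one hν n ht
    have hn0 : (0 : ℝ) ≤ n := by positivity
    have u0 : 0 ≤ ∑' k, om b k * ‖B.B.uB ν n k t‖ :=
      tsum_nonneg fun k => mul_nonneg (om_pos b k).le (norm_nonneg _)
    have h5 : (∑' k, om b k * ‖B.wS ν n k t‖) * ∑' k, om b k * ‖B.B.uB ν n k t‖ ≤
        (2 * C * n * ex ν n t) * (4 * C * ex ν n t) :=
      mul_le_mul h4 h3 u0 (by positivity)
    have h6 : (2 * C * n * ex ν n t) * (4 * C * ex ν n t) ≤ 16 * C ^ 2 * n * ex ν n t := by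
      have : 0 ≤ 8 * C ^ 2 * n * ex ν n t := by positivity
      calc (2 * C * n * ex ν n t) * (4 * C * ex ν n t) =
          (8 * C ^ 2 * n * ex ν n t) * ex ν n t := by ring
        _ ≤ (8 * C ^ 2 * n * ex ν n t) * 1 := by gcongr
        _ ≤ _ := by linarith
    nlinarith
  · rw [← mul_add]
    exact mul_le_mul_of_nonneg_left (norm_add_le _ _) (mk_nonneg b k)

end SB

end Pool.Agent.X97.FN
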