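import Pool.Agent.X97.FN.Data

/-!
The solution which visits the given states.
-/

open MeasureTheory Set Filter Topology
open scoped Pointwise

namespace Pool.Agent.X97.FN

open H459R3.NS FM FM.Blk

section
variable {ι : Type*}

/-- the weight is at most two on the frequencies of all blocks -/
lemma exists_b (J : Finset ι) (B : ι → SB) (n : ι → ℕ) :
    ∃ b : ℝ, 0 < b ∧ ∀ i ∈ J, (B i).B.Small (n i) b := by
  obtain ⟨D, hD0, hD⟩ := exists_bd J (fun i => ((N (B i).B.l : ℝ) + N ((B i).B.kk (n i)) +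
    N ((B i).B.kk (n i) + (B i).B.l))) (fun i => by positivity)
  have hD1 : 0 < 1 + D := by linarith
  have hlog : 0 < Real.log 2 := Real.log_pos (by norm_num)
  refine ⟨Real.log 2 / (1 + D), by positivity, fun i hi => ?_⟩
  have hom : ∀ x : K3, (N x : ℝ) ≤ 1 + D → om (Real.log 2 / (1 + D)) x ≤ 2 := by
    intro x hx
    unfold om
    rw [← Real.exp_log (by norm_num : (0:ℝ) < 2)]
    apply Real.exp_le_exp.2
    rw [Real.exp_log (by norm_num : (0:ℝ) < 2), div_mul_eq_mul_div, div_le_iff₀ hD1]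
    gcongr
  have h1 := hD i hi
  have p1 : (0 : ℝ) ≤ N (B i).B.l := by positivity
  have p2 : (0 : ℝ) ≤ N ((B i).B.kk (n i)) := by positivity
  have p3 : (0 : ℝ) ≤ N ((B i).B.kk (n i) + (B i).B.l) := by positivity
  exact ⟨hom _ (by linarith), hom _ (by linarith), hom _ (by linarith)⟩

variable [DecidableEq ι]

/-- the solution is small at some time in `[τ / 2, τ]` -/
lemma decay {J : Finset ι} {B : ι → SB} {n : ι → ℕ} {ν b M rinf η CV : ℝ} {φ : ℝ → ℝ}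
    {S : Finset K3} (h : Setup ν b M rinf η CV φ S (VV J B n ν) (EE J B n ν)) {C R δ τ : ℝ}
    (hn : ∀ i ∈ J, n i ≠ 0) (hR : 0 < R) (hRn : ∀ i ∈ J, R ≤ n i) (hC0 : 0 ≤ C)
    (hC : ∀ i ∈ J, (B i).Bnd ν C) (hsm : ∀ i ∈ J, (B i).B.Small (n i) b) (hδ : 0 < δ)
    (hτ : 0 < τ) (r2 : 4 * η / (39 * ν * rinf * τ) ≤ δ / 4)
    (r3 : (J.card : ℝ) * (12 * C * (1 / (cc ν * (τ / 2) * R))) ≤ δ / 4) :
    ∃ t ∈ Icc (τ / 2) τ,
      ∑' k, ‖VV J B n ν k t + zf ν (VV J B n ν) (EE J B n ν) k t‖ ≤ δ := by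
  have hν := h.hν
  have hc := cc_pos hν
  obtain ⟨t, ht, hz⟩ := h.z_time hτ (by positivity : (0:ℝ) < δ / 4)
  refine ⟨t, ht, ?_⟩
  have ht0 : 0 < t := by linarith [ht.1]
  have hVF := (VV_FS (B := B) (ν := ν) hn)
  have sV : Summable fun k => ‖VV J B n ν k t‖ := hVF.summ' t
  have sz : Summable fun k => ‖zf ν (VV J B n ν) (EE J B n ν) k t‖ :=
    Summable.of_nonneg_of_le (fun _ => norm_nonneg _) (fun k => h.zf_bd k ht0.le)
      (h.cB_summ.mul_left 2)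
  have s1 : Summable fun k => ‖VV J B n ν k t + zf ν (VV J B n ν) (EE J B n ν) k t‖ :=
    Summable.of_nonneg_of_le (fun _ => norm_nonneg _) (fun _ => norm_add_le _ _) (sV.add sz)
  have q1 := s1.tsum_le_tsum (fun k => norm_add_le _ _) (sV.add sz)
  rw [sV.tsum_add sz] at q1
  have q2 : ∑' k, ‖VV J B n ν k t‖ ≤ ∑ i ∈ J, xx n ν C i t := by
    refine le_trans ?_ (VV_le hν hn hC hsm ht0.le)
    refine sV.tsum_le_tsum (fun k => ?_) (hVF.summ (om b) t)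
    have := one_le_om h.hb.le k
    have := norm_nonneg (VV J B n ν k t)
    nlinarith
  have q3 : ∑ i ∈ J, xx n ν C i t ≤ (J.card : ℝ) * (12 * C * (1 / (cc ν * (τ / 2) * R))) := by
    have : ∀ i ∈ J, xx n ν C i t ≤ 12 * C * (1 / (cc ν * (τ / 2) * R)) := by
      intro i hi
      unfold xx
      have a1 := nex_le hν (hn i hi) hR (hRn i hi) ht0
      have a2 : 1 / (cc ν * t * R) ≤ 1 / (cc ν * (τ / 2) * R) := by
        apply one_div_le_one_div_of_le (by positivity)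
        have := ht.1
        gcongr
      calc 12 * C * n i * ex ν (n i) t = 12 * C * (n i * ex ν (n i) t) := by ring
        _ ≤ 12 * C * (1 / (cc ν * (τ / 2) * R)) := by
          gcongr
          exact a1.trans a2
    refine (Finset.sum_le_sum this).trans (le_of_eq ?_)
    rw [Finset.sum_const, nsmul_eq_mul]
  linarith

end

theorem core {ν : ℝ} (hν : 0 < ν) {c : ℕ → K3 → C3} (m : ℕ) (hh : ∀ j, Herm (c j))
    (h0 : ∀ j, c j 0 = 0) (hdiv : ∀ j k, kdot k (c j k) = 0) (K : ℕ) {q s δ τ Λ : ℝ} (hq : 2 < q)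
    (hs : 1 < s) (hδ : 0 < δ) (hτ : 0 < τ) (hΛ : 1 < Λ) :
    ∃ w : K3 → ℝ → C3, FSol ν w ∧ (∀ k, N k ≤ K → w k 0 = c 0 k) ∧
      (∃ S : Finset K3, ∀ k, k ∉ S → w k 0 = 0) ∧
      (∃ a b : ℕ → ℝ, a 0 = 0 ∧ (∀ j, 0 ≤ a j ∧ a j < b j ∧ Λ * a j ≤ b j) ∧
        (∀ j, j < m → b j < a (j + 1)) ∧ b m < τ ∧
        ∀ j, j ≤ m → ∀ t ∈ Icc (a j) (b j), ∃ Y : K3 → C3,
          (∀ k, w k t = (if N k ≤ K then c j k else 0) + Y k) ∧ Sml q s δ Y) ∧
      ∃ t ∈ Icc (τ / 2) τ, ∑' k, ‖w k t‖ ≤ δ := by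
  obtain ⟨M, B, C, G, E, rt, hM, D, hMq⟩ := exists_data hν m hh h0 hdiv K hq (half_pos hδ)
  obtain ⟨R, hR1, hRK, hRr, r1, r1', r2, r3, r4, r5, r6, r7⟩ :=
    exists_R hν (JX m K M).card K rt C G hs hδ hτ hΛ.le
  obtain ⟨n, a, b', hRn', hsep, ha0, hab, hba, hbm, hTe, hTl'⟩ := exists_freq m K M hR1 hΛ r7
  obtain ⟨b, hb, hsm⟩ := exists_b (JX m K M) B n
  have hR0 : (0 : ℝ) < R := by exact_mod_cast (by omega : 0 < R)
  have hRΛ : (0 : ℝ) < R / Λ := by positivity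
  have hRΛ1 : (R : ℝ) / Λ ≤ R := div_le_self hR0.le hΛ.le
  have hn : ∀ i ∈ JX m K M, n i ≠ 0 := fun i _ => by have := hRn' i; omega
  have hRn : ∀ i ∈ JX m K M, (R : ℝ) ≤ n i := fun i _ => by exact_mod_cast hRn' i
  have hlac : ∀ i ∈ JX m K M, ∀ j ∈ JX m K M, i ≠ j →
      (R : ℝ) * ((n i : ℝ) * n j) ≤ (n i : ℝ) ^ 2 + (n j : ℝ) ^ 2 := by
    intro i hi j hj hij
    have p1 : (0 : ℝ) ≤ n i := by positivity
    have p2 : (0 : ℝ) ≤ n j := by positivity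
    rcases hsep i hi j hj hij with h | h
    · have h2 : (R : ℝ) * n i ≤ n j := by exact_mod_cast h
      nlinarith [sq_nonneg (n i : ℝ)]
    · have h2 : (R : ℝ) * n j ≤ n i := by exact_mod_cast h
      nlinarith [sq_nonneg (n j : ℝ)]
  have h := setup (J := JX m K M) (B := B) (n := n) hb hν hn D.C0 D.bnd hsm hR0 hRn hlac r1
  have hF := FSol_of_setup h (VV_deriv hn)
  have key : ∀ j, j ≤ m → ∀ t ∈ Icc (a j) (b' j), ∃ Y : K3 → C3,
      (∀ k, VV (JX m K M) B n ν k t + zf ν (VV (JX m K M) B n ν) (EE (JX m K M) B n ν) k t =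
        (if N k ≤ K then c j k else 0) + Y k) ∧ Sml q s δ Y := by
    intro j hj t ht
    obtain ⟨Y, hY, hYs⟩ := visit (P := fun i : Ix => j ≤ i.1) h hq hs hδ hn hRΛ
      (fun i hi => hRΛ1.trans (hRn i hi)) D.bnd D.E0
      D.e1 D.e2 D.g hsep (fun i hi => by have := D.r i hi; omega) hMq r4 r5 r1'
      ((hab j).1.trans ht.1) (fun i hi hji => hTe i hi j hji t ht.2)
      (fun i hi hji => hRΛ1.trans (hTl' i hi j hj hji t ht.1))
    refine ⟨Y, fun k => ?_, hYs⟩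
    rw [hY k, D.low n j hj k]
  have hw0 : ∀ k, VV (JX m K M) B n ν k 0 + zf ν (VV (JX m K M) B n ν) (EE (JX m K M) B n ν) k 0 =
      VV (JX m K M) B n ν k 0 := fun k => by rw [zf_zero, add_zero]
  refine ⟨fun k t => VV (JX m K M) B n ν k t +
    zf ν (VV (JX m K M) B n ν) (EE (JX m K M) B n ν) k t, hF, ?_,
    ⟨S0 (JX m K M) B n, fun k hk => ?_⟩,
    ⟨a, b', ha0, hab, hba, lt_of_le_of_lt hbm r6, key⟩,
    decay h hn hR0 hRn D.C0 D.bnd hsm hδ hτ r2 r3⟩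
  · intro k hk
    have e : VV (JX m K M) B n ν k 0 = ∑ i ∈ JX m K M,
        (if 0 ≤ i.1 then (B i).B.uB ν (n i) k 0 else 0) + WW (JX m K M) B n ν 0 k := by
      have e1 : VV (JX m K M) B n ν k 0 = ∑ i ∈ JX m K M, ((B i).B.uB ν (n i) k 0 +
          ((B i).wS ν (n i) k 0 + (B i).zS ν (n i) k 0)) := rfl
      rw [e1, Finset.sum_add_distrib]
      rfl
    show VV (JX m K M) B n ν k 0 + zf ν (VV (JX m K M) B n ν) (EE (JX m K M) B n ν) k 0 = c 0 k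
    rw [zf_zero, add_zero, e, D.low n 0 (Nat.zero_le m) k, if_pos hk,
      WW_low hRK (fun i _ => hRn' i) D.l hk, add_zero]
  · show VV (JX m K M) B n ν k 0 + zf ν (VV (JX m K M) B n ν) (EE (JX m K M) B n ν) k 0 = 0
    rw [hw0]
    exact (VV_FS hn).supp k hk 0

end Pool.Agent.X97.FN
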