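import Pool.Agent.X97.FN.Visit

/-!
The blocks of all stages, and the choice of the ratio of the frequencies.
-/

open MeasureTheory Set Filter Topology
open scoped Pointwise

namespace Pool.Agent.X97.FN

open H459R3.NS FM FM.Blk

/-- the step between two states -/
def stp (c : ℕ → K3 → C3) (m j : ℕ) (k : K3) : C3 := c j k - if j < m then c (j + 1) k else 0

lemma stp_herm {c : ℕ → K3 → C3} (m : ℕ) (hh : ∀ j, Herm (c j)) (j : ℕ) : Herm (stp c m j) := by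
  intro k
  unfold stp
  split_ifs
  · rw [hh j k, hh (j + 1) k]
    funext i
    simp [cj]
  · rw [sub_zero, sub_zero, hh j k]

lemma stp_zero {c : ℕ → K3 → C3} (m : ℕ) (h0 : ∀ j, c j 0 = 0) (j : ℕ) : stp c m j 0 = 0 := by
  unfold stp
  simp [h0]

lemma stp_div {c : ℕ → K3 → C3} (m : ℕ) (hdiv : ∀ j k, kdot k (c j k) = 0) (j : ℕ) (k : K3) :
    kdot k (stp c m j k) = 0 := by
  unfold stp
  rw [kdot_sub, hdiv]
  split_ifs
  · rw [hdiv, sub_zero]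
  · rw [kdot_zero, sub_zero]

lemma low_all {c : ℕ → K3 → C3} (m : ℕ) (hh : ∀ j, Herm (c j)) (h0 : ∀ j, c j 0 = 0) (K : ℕ)
    {BB : ℕ → K3 × Bool → Blk}
    (hBB : ∀ j, ∀ k, k ≠ 0 → (BB j (k, true)).l = k ∧ (BB j (k, false)).l = k ∧
      (BB j (k, true)).A • cz (BB j (k, true)).a + (BB j (k, false)).A • cz (BB j (k, false)).a =
        stp c m j k) {M : ℕ} (hM : 0 < M) (ν : ℝ) (n : Ix → ℕ) {j : ℕ} (hj : j ≤ m) (k : K3) :
    ∑ i ∈ JX m K M, (if j ≤ i.1 then (sb (BB i.1 i.2.1) hM).B.uB ν (n i) k 0 else 0) =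
      if N k ≤ K then c j k else 0 := by
  rw [JX, Finset.sum_product]
  have e1 : ∀ j' ∈ Finset.range (m + 1), ∑ x ∈ JJ K ×ˢ Finset.range M,
      (if j ≤ ((j', x) : Ix).1 then (sb (BB ((j', x) : Ix).1 ((j', x) : Ix).2.1) hM).B.uB ν
        (n (j', x)) k 0 else 0) =
      if j ≤ j' then (if N k ≤ K then stp c m j' k else 0) else 0 := by
    intro j' _
    have := low_stage (K := K) (stp_herm m hh j') (stp_zero m h0 j') (hBB j') hM ν (fun x => n (j', x)) k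
    by_cases h1 : j ≤ j'
    · simp only [if_pos h1]
      exact this
    · simp only [if_neg h1]
      exact Finset.sum_const_zero
  rw [Finset.sum_congr rfl e1]
  by_cases hk : N k ≤ K
  · simp only [if_pos hk]
    exact telescope m (fun j => c j k) hj
  · simp only [if_neg hk, ite_self]
    exact Finset.sum_const_zero

/-- the properties of the blocks -/
structure Dt (ν : ℝ) (c : ℕ → K3 → C3) (m K M : ℕ) (B : Ix → SB) (C G E : ℝ) (rt : ℕ) : Prop where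
  C0 : 0 ≤ C
  E0 : 0 ≤ E
  bnd : ∀ i ∈ JX m K M, (B i).Bnd ν C
  e1 : ∀ i ∈ JX m K M, (B i).s * N (B i).B.l ≤ E
  e2 : ∀ i ∈ JX m K M, (B i).s⁻¹ * (‖(B i).B.bet ν‖ * N (B i).B.a) ≤ E
  g : ∀ i ∈ JX m K M, 3 * (cc ν * (FM.sq (B i).B.l * FM.sq (B i).B.a)) ≤ G
  r : ∀ i ∈ JX m K M, rat (B i).B ≤ rt
  l : ∀ i ∈ JX m K M, N (B i).B.l ≤ K
  low : ∀ n : Ix → ℕ, ∀ j, j ≤ m → ∀ k,
    ∑ i ∈ JX m K M, (if j ≤ i.1 then (B i).B.uB ν (n i) k 0 else 0) =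
      if N k ≤ K then c j k else 0

lemma hJP1 {m K M : ℕ} {i : Ix} (hi : i ∈ JX m K M) : (i.1, i.2.1) ∈ Finset.range (m + 1) ×ˢ JJ K := by
    have := mem_JX.1 hi
    rw [Finset.mem_product, Finset.mem_range]
    exact ⟨Nat.lt_succ_of_le this.1, this.2.1⟩

/-- the blocks -/
noncomputable def sbx (BB : ℕ → K3 × Bool → Blk) {M : ℕ} (hM : 0 < M) (i : Ix) : SB := sb (BB i.1 i.2.1) hM

section
variable {ν : ℝ} (hν : 0 < ν) {m K : ℕ} {BB : ℕ → K3 × Bool → Blk} {M : ℕ} (hM : 0 < M) {C G : ℝ} {rt : ℕ}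
include hν
lemma tB 
    (hC : ∀ x ∈ Finset.range (m + 1) ×ˢ JJ K, (BB x.1 x.2).C ν ≤ C) (i : Ix) (hi : i ∈ JX m K M) : (sbx BB hM i).Bnd ν C :=
  sb_Bnd (BB i.1 i.2.1) hM hν (hC (i.1, i.2.1) (hJP1 hi))
lemma t1 
    (hC : ∀ x ∈ Finset.range (m + 1) ×ˢ JJ K, (BB x.1 x.2).C ν ≤ C) (i : Ix) (hi : i ∈ JX m K M) :
    (sbx BB hM i).s * N (sbx BB hM i).B.l ≤ C / Real.sqrt M :=
  sb_D1 (BB i.1 i.2.1) hM hν (hC (i.1, i.2.1) (hJP1 hi))
lemma t2 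
    (hC : ∀ x ∈ Finset.range (m + 1) ×ˢ JJ K, (BB x.1 x.2).C ν ≤ C) (i : Ix) (hi : i ∈ JX m K M) :
    (sbx BB hM i).s⁻¹ * (‖(sbx BB hM i).B.bet ν‖ * N (sbx BB hM i).B.a) ≤ C / Real.sqrt M :=
  sb_D2 (BB i.1 i.2.1) hM hν (hC (i.1, i.2.1) (hJP1 hi))
omit hν
lemma t3 (hG : ∀ x ∈ Finset.range (m + 1) ×ˢ JJ K,
      3 * (cc ν * (FM.sq (BB x.1 x.2).l * FM.sq (BB x.1 x.2).a)) ≤ G) (i : Ix) (hi : i ∈ JX m K M) :
    3 * (cc ν * (FM.sq (sbx BB hM i).B.l * FM.sq (sbx BB hM i).B.a)) ≤ G := hG (i.1, i.2.1) (hJP1 hi)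
lemma t4 (hr : ∀ x ∈ Finset.range (m + 1) ×ˢ JJ K, rat (BB x.1 x.2) ≤ rt) (i : Ix) (hi : i ∈ JX m K M) :
    rat (sbx BB hM i).B ≤ rt := hr (i.1, i.2.1) (hJP1 hi)
end


lemma t5 {ν : ℝ} {c : ℕ → K3 → C3} {m K : ℕ} {BB : ℕ → K3 × Bool → Blk}
    (hBB : ∀ j, ∀ k, k ≠ 0 → (BB j (k, true)).l = k ∧ (BB j (k, false)).l = k ∧
      (BB j (k, true)).A • cz (BB j (k, true)).a + (BB j (k, false)).A • cz (BB j (k, false)).a =
        stp c m j k) {M : ℕ} (hM : 0 < M) (i : Ix) (hi : i ∈ JX m K M) : N (sbx BB hM i).B.l ≤ K := by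
  have hi' := mem_JJ.1 (mem_JX.1 hi).2.1
  obtain ⟨j, ⟨k, y⟩, x⟩ := i
  obtain ⟨a1, a2, -⟩ := hBB j k hi'.1
  show N (BB j (k, y)).l ≤ K
  cases y
  · rw [a2]; exact hi'.2
  · rw [a1]; exact hi'.2

lemma dt_of {ν : ℝ} (hν : 0 < ν) {c : ℕ → K3 → C3} (m : ℕ) (hh : ∀ j, Herm (c j))
    (h0 : ∀ j, c j 0 = 0) (K : ℕ) {BB : ℕ → K3 × Bool → Blk}
    (hBB : ∀ j, ∀ k, k ≠ 0 → (BB j (k, true)).l = k ∧ (BB j (k, false)).l = k ∧
      (BB j (k, true)).A • cz (BB j (k, true)).a + (BB j (k, false)).A • cz (BB j (k, false)).a =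
        stp c m j k) {M : ℕ} (hM : 0 < M) {C G : ℝ} {rt : ℕ} (hC0 : 0 ≤ C)
    (hC : ∀ x ∈ Finset.range (m + 1) ×ˢ JJ K, (BB x.1 x.2).C ν ≤ C)
    (hG : ∀ x ∈ Finset.range (m + 1) ×ˢ JJ K,
      3 * (cc ν * (FM.sq (BB x.1 x.2).l * FM.sq (BB x.1 x.2).a)) ≤ G)
    (hr : ∀ x ∈ Finset.range (m + 1) ×ˢ JJ K, rat (BB x.1 x.2) ≤ rt) :
    Dt ν c m K M (sbx BB hM) C G (C / Real.sqrt M) rt where
  C0 := hC0
  E0 := div_nonneg hC0 (Real.sqrt_nonneg _)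
  bnd := tB hν hM hC
  e1 := t1 hν hM hC
  e2 := t2 hν hM hC
  g := t3 hM hG
  r := t4 hM hr
  l := t5 (ν := ν) hBB hM
  low := fun n _ hj k => low_all m hh h0 K hBB hM ν n hj k

lemma exists_bd {α : Type*} (P : Finset α) (f : α → ℝ) (hf : ∀ x, 0 ≤ f x) :
    ∃ C : ℝ, 0 ≤ C ∧ ∀ x ∈ P, f x ≤ C :=
  ⟨∑ x ∈ P, f x, Finset.sum_nonneg fun x _ => hf x,
    fun _ hx => Finset.single_le_sum (fun x _ => hf x) hx⟩

lemma exists_bdN {α : Type*} (P : Finset α) (f : α → ℕ) : ∃ C : ℕ, ∀ x ∈ P, f x ≤ C :=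
  ⟨∑ x ∈ P, f x, fun _ hx => Finset.single_le_sum (fun x _ => Nat.zero_le _) hx⟩

theorem exists_data {ν : ℝ} (hν : 0 < ν) {c : ℕ → K3 → C3} (m : ℕ) (hh : ∀ j, Herm (c j))
    (h0 : ∀ j, c j 0 = 0) (hdiv : ∀ j k, kdot k (c j k) = 0) (K : ℕ) {q δ : ℝ} (hq : 2 < q)
    (hδ : 0 < δ) :
    ∃ (M : ℕ) (B : Ix → SB) (C G E : ℝ) (rt : ℕ), 0 < M ∧ Dt ν c m K M B C G E rt ∧
      2 * ((JX m K M).card : ℝ) * (6 * E) ^ q ≤ δ ^ q := by
  choose BB hBB using fun j => exists_blocks (stp c m j) (stp_div m hdiv j)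
  obtain ⟨C, hC0, hC⟩ := exists_bd (Finset.range (m + 1) ×ˢ JJ K) (fun x => (BB x.1 x.2).C ν)
    (fun x => (BB x.1 x.2).C_nonneg hν)
  have hc := cc_pos hν
  obtain ⟨G, -, hG⟩ := exists_bd (Finset.range (m + 1) ×ˢ JJ K)
    (fun x => 3 * (cc ν * (FM.sq (BB x.1 x.2).l * FM.sq (BB x.1 x.2).a))) (fun x => by
      have := sq_nonneg' (BB x.1 x.2).l
      have := sq_nonneg' (BB x.1 x.2).a
      positivity)
  obtain ⟨rt, hr⟩ := exists_bdN (Finset.range (m + 1) ×ˢ JJ K) (fun x => rat (BB x.1 x.2))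
  obtain ⟨M, hM, hMq⟩ := exists_M hq hδ (Finset.range (m + 1) ×ˢ JJ K).card hC0
  refine ⟨M, sbx BB hM, C, G, C / Real.sqrt M, rt, hM,
    dt_of hν m hh h0 K hBB hM hC0 hC hG hr, ?_⟩
  rw [card_JX]
  exact hMq

lemma exists_R {ν : ℝ} (hν : 0 < ν) (p K rt : ℕ) (C G : ℝ) {s δ τ Λ : ℝ}
    (hs : 1 < s) (hδ : 0 < δ) (hτ : 0 < τ) (hΛ : 1 ≤ Λ) :
    ∃ R : ℕ, 1 < R ∧ 2 * K < R ∧ 4 * rt < R ∧ eta p C ν R ≤ ν * rin p C ν / 32 ∧
      2 * eta p C ν R / rin p C ν ≤ δ / 8 ∧ 4 * eta p C ν R / (39 * ν * rin p C ν * τ) ≤ δ / 4 ∧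
      (p : ℝ) * (12 * C * (1 / (cc ν * (τ / 2) * R))) ≤ δ / 4 ∧
      (p : ℝ) * (2 * (C * (R / Λ : ℝ) ^ (1 - s))) ≤ δ / 2 ∧
      (p : ℝ) * (G * (1 / (R / Λ)) * C + 1 / (cc ν * (R / Λ)) * C) ≤ δ / 8 ∧
      1 / ((R : ℝ) / Λ) < τ ∧ Λ < R := by
  have hc := cc_pos hν
  have hΛ0 : 0 < Λ := by linarith
  have hrin : 0 < rin p C ν := Real.exp_pos _
  have cast := tendsto_natCast_atTop_atTop (R := ℝ)
  have cast2 : Tendsto (fun R : ℕ => (R : ℝ) / Λ) atTop atTop := cast.atTop_div_const hΛ0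
  have t1 : Tendsto (fun R : ℕ => eta p C ν R) atTop (𝓝 0) := by
    unfold eta
    exact tendsto_const_nhds.div_atTop (cast.const_mul_atTop hc)
  have t1' : Tendsto (fun R : ℕ => 2 * eta p C ν R / rin p C ν) atTop (𝓝 0) := by
    simpa using (t1.const_mul 2).div_const (rin p C ν)
  have t2 : Tendsto (fun R : ℕ => 4 * eta p C ν R / (39 * ν * rin p C ν * τ)) atTop (𝓝 0) := by
    have := (t1.const_mul 4).div_const (39 * ν * rin p C ν * τ)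
    simpa using this
  have t3 : Tendsto (fun R : ℕ => (p : ℝ) * (12 * C * (1 / (cc ν * (τ / 2) * R)))) atTop (𝓝 0) := by
    have h1 : Tendsto (fun R : ℕ => 1 / (cc ν * (τ / 2) * R)) atTop (𝓝 0) :=
      tendsto_const_nhds.div_atTop (cast.const_mul_atTop (by positivity))
    simpa using (h1.const_mul (12 * C)).const_mul (p : ℝ)
  have t4 : Tendsto (fun R : ℕ => (p : ℝ) * (2 * (C * (R / Λ : ℝ) ^ (1 - s)))) atTop (𝓝 0) := by
    have h1 : Tendsto (fun R : ℕ => (R / Λ : ℝ) ^ (1 - s)) atTop (𝓝 0) := by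
      have := (tendsto_rpow_neg_atTop (y := s - 1) (by linarith)).comp cast2
      refine this.congr fun R => ?_
      show (R / Λ : ℝ) ^ (-(s - 1)) = _
      rw [neg_sub]
    simpa using ((h1.const_mul C).const_mul 2).const_mul (p : ℝ)
  have t6 : Tendsto (fun R : ℕ => 1 / ((R : ℝ) / Λ)) atTop (𝓝 0) :=
    tendsto_const_nhds.div_atTop cast2
  have t5 : Tendsto (fun R : ℕ => (p : ℝ) * (G * (1 / (R / Λ)) * C + 1 / (cc ν * (R / Λ)) * C))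
      atTop (𝓝 0) := by
    have h2 : Tendsto (fun R : ℕ => 1 / (cc ν * ((R : ℝ) / Λ))) atTop (𝓝 0) :=
      tendsto_const_nhds.div_atTop (cast2.const_mul_atTop hc)
    have h3 := ((((t6.const_mul G).mul_const C)).add (h2.mul_const C)).const_mul (p : ℝ)
    simp only [mul_zero, zero_mul, add_zero] at h3
    exact h3
  have v1 : 0 < ν * rin p C ν / 32 := by positivity
  obtain ⟨R, r1, r1', r2, r3, r4, r5, r6, r7, r8, r9, r10⟩ := ((t1.eventually (gt_mem_nhds v1)).and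
    ((t1'.eventually (gt_mem_nhds (by positivity : (0:ℝ) < δ / 8))).and
    ((t2.eventually (gt_mem_nhds (by positivity : (0:ℝ) < δ / 4))).and
    ((t3.eventually (gt_mem_nhds (by positivity : (0:ℝ) < δ / 4))).and
    ((t4.eventually (gt_mem_nhds (half_pos hδ))).and
    ((t5.eventually (gt_mem_nhds (by positivity : (0:ℝ) < δ / 8))).and
    ((t6.eventually (gt_mem_nhds hτ)).and
    ((eventually_gt_atTop (2 * K)).and
    ((eventually_gt_atTop (4 * rt)).and ((eventually_gt_atTop 1).and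
    (cast.eventually (eventually_gt_atTop Λ)))))))))))).exists
  exact ⟨R, r9, r7, r8, r1.le, r1'.le, r2.le, r3.le, r4.le, r5.le, r6, r10⟩

/-- the frequencies and the times -/
theorem exists_freq (m K M : ℕ) {R : ℕ} (hR : 1 < R) {Λ : ℝ} (hΛ : 1 < Λ) (hΛR : Λ < R) :
    ∃ (n : Ix → ℕ) (a b : ℕ → ℝ), (∀ i, R ≤ n i) ∧
      (∀ i ∈ JX m K M, ∀ i' ∈ JX m K M, i ≠ i' → R * n i ≤ n i' ∨ R * n i' ≤ n i) ∧
      a 0 = 0 ∧ (∀ j, 0 ≤ a j ∧ a j < b j ∧ Λ * a j ≤ b j) ∧ (∀ j, j < m → b j < a (j + 1)) ∧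
      b m ≤ 1 / (R / Λ) ∧
      (∀ i ∈ JX m K M, ∀ j, j ≤ i.1 → ∀ t, t ≤ b j → (n i : ℝ) ^ 2 * t ≤ 1 / (R / Λ)) ∧
      (∀ i ∈ JX m K M, ∀ j, j ≤ m → ¬ j ≤ i.1 → ∀ t, a j ≤ t → (R : ℝ) ≤ (n i : ℝ) ^ 2 * t) := by
  obtain ⟨e0, he0⟩ := exists_injective_nat ((K3 × Bool) × ℕ)
  obtain ⟨L, hL0, hL⟩ : ∃ L : ℕ, 0 < L ∧ ∀ x ∈ JJ K ×ˢ Finset.range M, e0 x < L := by
    refine ⟨1 + ∑ x ∈ JJ K ×ˢ Finset.range M, e0 x, by omega, fun x hx => ?_⟩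
    have h2 : e0 x ≤ ∑ x ∈ JJ K ×ˢ Finset.range M, e0 x :=
      Finset.single_le_sum (fun x _ => Nat.zero_le _) hx
    omega
  have hL1 : ∀ i ∈ JX m K M, e0 i.2 < L := by
    intro i hi
    have hi' := mem_JX.1 hi
    exact hL i.2 (by rw [Finset.mem_product, Finset.mem_range]; exact hi'.2)
  have lac0 : ∀ i j, ex' m L e0 i < ex' m L e0 j →
      R * R ^ (ex' m L e0 i + 1) ≤ R ^ (ex' m L e0 j + 1) := by
    intro i j hij
    calc R * R ^ (ex' m L e0 i + 1) = R ^ (ex' m L e0 i + 1 + 1) := by rw [pow_succ]; ring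
      _ ≤ R ^ (ex' m L e0 j + 1) := Nat.pow_le_pow_right (by omega) (by omega)
  have hT0 : ∀ j, 0 < Tj m L R j := fun j => Tj_pos hR.le
  have hR0 : (0 : ℝ) < R := by linarith
  have hdiv : 1 / ((R : ℝ) / Λ) = Λ * (1 / R) := by field_simp
  refine ⟨fun i => R ^ (ex' m L e0 i + 1), fun j => if j = 0 then 0 else Tj m L R j,
    fun j => Λ * Tj m L R j, fun i => ?_, fun i hi i' hi' hne => ?_,
    by simp, fun j => ?_, fun j hj => ?_, ?_, fun i hi j hj t ht => ?_,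
    fun i hi j hjm hj t ht => ?_⟩
  · calc R = R ^ 1 := (pow_one R).symm
      _ ≤ R ^ (ex' m L e0 i + 1) := Nat.pow_le_pow_right (by omega) (by omega)
  · have h : ex' m L e0 i ≠ ex' m L e0 i' := fun h =>
      hne (ex'_inj he0 (mem_JX.1 hi).1 (mem_JX.1 hi').1 (hL1 i hi) (hL1 i' hi') h)
    rcases lt_or_gt_of_ne h with h | h
    · exact Or.inl (lac0 i i' h)
    · exact Or.inr (lac0 i' i h)
  · have h := hT0 j
    simp only
    split_ifs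
    · refine ⟨le_rfl, by positivity, ?_⟩
      rw [mul_zero]
      positivity
    · refine ⟨h.le, ?_, le_rfl⟩
      nlinarith
  · have h := hT0 j
    have h2 := Tj_lt hR.le hL0 hj
    simp only [Nat.succ_ne_zero, if_false]
    refine lt_of_lt_of_le ?_ h2
    exact mul_lt_mul_of_pos_right hΛR h
  · rw [hdiv]
    exact mul_le_mul_of_nonneg_left (Tj_le hR.le) (by linarith)
  · rw [hdiv]
    have h3 := Tj_early (e0 := e0) hR.le (mem_JX.1 hi).1 (hL1 i hi) hj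
    have h4 : (0 : ℝ) ≤ ((R ^ (ex' m L e0 i + 1) : ℕ) : ℝ) ^ 2 := by positivity
    calc ((R ^ (ex' m L e0 i + 1) : ℕ) : ℝ) ^ 2 * t ≤
        ((R ^ (ex' m L e0 i + 1) : ℕ) : ℝ) ^ 2 * (Λ * Tj m L R j) :=
          mul_le_mul_of_nonneg_left ht h4
      _ = Λ * (((R ^ (ex' m L e0 i + 1) : ℕ) : ℝ) ^ 2 * Tj m L R j) := by ring
      _ ≤ _ := mul_le_mul_of_nonneg_left h3 (by linarith)
  · have h3 := Tj_late (e0 := e0) (L := L) hR.le (not_le.1 hj) hjm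
    have hj0 : j ≠ 0 := by omega
    simp only [if_neg hj0] at ht
    have h4 : (0 : ℝ) ≤ ((R ^ (ex' m L e0 i + 1) : ℕ) : ℝ) ^ 2 := by positivity
    exact h3.trans (mul_le_mul_of_nonneg_left ht h4)

end Pool.Agent.X97.FN
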