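import Pool.Agent.X97.FN.Shell

/-!
Bounds of the blocks at the chosen times; division of a block into equal parts.
-/

open MeasureTheory Set Filter Topology
open scoped Pointwise

namespace Pool.Agent.X97.FN

open H459R3.NS FM FM.Blk

lemma mem_shl_iff {j : ℕ} {k : K3} (hk : N k ≠ 0) : k ∈ shl j ↔ j = Nat.log 2 (N k) := by
  constructor
  · intro h
    rw [mem_shl] at h
    symm
    rw [Nat.log_eq_iff (Or.inr ⟨by norm_num, hk⟩)]
    exact h
  · intro h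
    rw [mem_shl, ← Nat.log_eq_iff (Or.inr ⟨by norm_num, hk⟩)]
    exact h.symm

lemma N_kkl (B : Blk) (n : ℕ) : n ≤ 2 * N (B.kk n + B.l) := by
  have h1 := sq_kkl_ge B n
  have h2 := sq_le_N (B.kk n + B.l)
  have h3 : (n : ℝ) ^ 2 ≤ (2 * (N (B.kk n + B.l) : ℝ)) ^ 2 := by
    nlinarith [sq_nonneg (N (B.kk n + B.l) : ℝ)]
  have h4 : (n : ℝ) ≤ 2 * (N (B.kk n + B.l) : ℝ) :=
    (sq_le_sq₀ (by positivity) (by positivity)).1 h3
  exact_mod_cast h4

lemma N_kk_le (B : Blk) (n : ℕ) : N (B.kk n) ≤ n * N B.kap := by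
  rw [N_le_iff]
  intro j
  have h := (N_le_iff B.kap (N B.kap)).1 le_rfl j
  unfold kk
  rw [Pi.smul_apply, smul_eq_mul, abs_mul]
  push_cast
  have : |(n : ℤ)| = n := by simp
  rw [this]
  gcongr

/-- the ratio of the largest frequency -/
def rat (B : Blk) : ℕ := N B.kap + N B.l

lemma N_kk_rat (B : Blk) (n : ℕ) : N (B.kk n) ≤ n * rat B := by
  refine (N_kk_le B n).trans ?_
  unfold rat
  gcongr
  omega

lemma N_kkl_rat (B : Blk) {n : ℕ} (hn : n ≠ 0) : N (B.kk n + B.l) ≤ n * rat B := by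
  refine (N_add_le _ _).trans ?_
  have h1 := N_kk_le B n
  have h2 : N B.l ≤ n * N B.l := Nat.le_mul_of_pos_left _ (Nat.pos_of_ne_zero hn)
  unfold rat
  rw [mul_add]
  omega

/-- the shells of the waves of a block -/
def TT (B : Blk) (n : ℕ) : Finset ℕ := {Nat.log 2 (N (B.kk n)), Nat.log 2 (N (B.kk n + B.l))}

lemma TT_card (B : Blk) (n : ℕ) : (TT B n).card ≤ 2 := Finset.card_le_two

lemma TT_bd {B : Blk} {n : ℕ} (hn : n ≠ 0) {j : ℕ} (hj : j ∈ TT B n) :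
    2 ^ j ≤ n * rat B ∧ n < 2 * 2 ^ (j + 1) := by
  have h1 : n ≤ N (B.kk n) := by
    have := B.N_kk n
    exact_mod_cast this
  have h2 := N_kkl B n
  have h3 := N_kk_rat B n
  have h4 := N_kkl_rat B hn
  unfold TT at hj
  rw [Finset.mem_insert, Finset.mem_singleton] at hj
  rcases hj with h | h
  · have a := (Nat.log_eq_iff (b := 2) (n := N (B.kk n)) (m := j) (Or.inr ⟨by norm_num, by omega⟩)).1 h.symm
    refine ⟨a.1.trans h3, ?_⟩
    have := a.2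
    omega
  · have a := (Nat.log_eq_iff (b := 2) (n := N (B.kk n + B.l)) (m := j)
      (Or.inr ⟨by norm_num, by omega⟩)).1 h.symm
    refine ⟨a.1.trans h4, ?_⟩
    have := a.2
    omega

lemma TT_disj {B B' : Blk} {n n' R : ℕ} (hn : n ≠ 0) (hn' : n' ≠ 0) (h : R * n ≤ n')
    (hR : 4 * rat B < R) {j : ℕ} (hj : j ∈ TT B n) (hj' : j ∈ TT B' n') : False := by
  have a := (TT_bd hn hj).1
  have b := (TT_bd hn' hj').2
  rw [pow_succ] at b
  have c : n' < 4 * (n * rat B) := by omega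
  have d : 4 * (n * rat B) ≤ R * n := by
    calc 4 * (n * rat B) = (4 * rat B) * n := by ring
      _ ≤ R * n := Nat.mul_le_mul_right _ hR.le
  omega

lemma bk_wS (B : SB) {ν D : ℝ} (hν : 0 < ν) {n : ℕ} (hn : n ≠ 0) (hD : B.s * N B.B.l ≤ D) {t : ℝ}
    (ht : 0 ≤ t) (j : ℕ) :
    bk (fun k => B.wS ν n k t) j ≤ if j ∈ TT B.B n then 2 * D else 0 := by
  have hn0 : (0 : ℝ) < n := by exact_mod_cast Nat.pos_of_ne_zero hn
  have h1 : (n : ℝ) ≤ N (B.B.kk n) := B.B.N_kk n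
  have hN : N (B.B.kk n) ≠ 0 := by
    intro h
    rw [h] at h1
    push_cast at h1
    linarith
  have hs := B.hs
  have hD0 : 0 ≤ D := le_trans (by positivity) hD
  rw [bk_eq]
  by_cases hj : B.B.kk n ∈ shl j
  · have hT : j ∈ TT B.B n := by
      unfold TT
      rw [(mem_shl_iff hN).1 hj]
      simp
    rw [if_pos hT]
    have hw : sw j (B.B.kk n) ≤ 2 / n := (sw_le j).trans (by gcongr)
    refine (SB.wS_gen n hν hD (sw_nonneg j) (sw_neg j _) hw ht).trans ?_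
    have he := ex_le_one hν n ht
    have he0 := ex_pos ν n t
    calc 2 / (n : ℝ) * (D * n * ex ν n t) = 2 * D * ex ν n t := by field_simp
      _ ≤ 2 * D * 1 := by gcongr
      _ = _ := mul_one _
  · have hw : sw j (B.B.kk n) ≤ 0 := by unfold sw; rw [if_neg hj]
    refine (SB.wS_gen n hν hD (sw_nonneg j) (sw_neg j _) hw ht).trans ?_
    rw [zero_mul]
    split_ifs <;> positivity

lemma bk_zS (B : SB) {ν D : ℝ} (hν : 0 < ν) {n : ℕ} (hn : n ≠ 0)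
    (hD : B.s⁻¹ * (‖B.B.bet ν‖ * N B.B.a) ≤ D) {t : ℝ} (ht : 0 ≤ t) (j : ℕ) :
    bk (fun k => B.zS ν n k t) j ≤ if j ∈ TT B.B n then 4 * D else 0 := by
  have hn0 : (0 : ℝ) < n := by exact_mod_cast Nat.pos_of_ne_zero hn
  have h1 : (n : ℝ) ≤ 2 * N (B.B.kk n + B.B.l) := by exact_mod_cast N_kkl B.B n
  have hN : N (B.B.kk n + B.B.l) ≠ 0 := by
    intro h
    rw [h] at h1
    push_cast at h1
    linarith
  have hN0 : (0 : ℝ) < N (B.B.kk n + B.B.l) := by exact_mod_cast Nat.pos_of_ne_zero hN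
  have hs := B.hs
  have hD0 : 0 ≤ D := le_trans (by positivity) hD
  rw [bk_eq]
  by_cases hj : B.B.kk n + B.B.l ∈ shl j
  · have hT : j ∈ TT B.B n := by
      unfold TT
      rw [(mem_shl_iff hN).1 hj]
      simp
    rw [if_pos hT]
    have hw : sw j (B.B.kk n + B.B.l) ≤ 4 / n := by
      refine (sw_le j).trans ?_
      rw [div_le_div_iff₀ hN0 hn0]
      linarith
    refine (SB.zS_gen n hν hD (sw_nonneg j) (sw_neg j _) hw ht).trans ?_
    have he := ex_le_one hν n ht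
    have he0 := ex_pos ν n t
    calc 4 / (n : ℝ) * (D * n * ex ν n t) = 4 * D * ex ν n t := by field_simp
      _ ≤ 4 * D * 1 := by gcongr
      _ = _ := mul_one _
  · have hw : sw j (B.B.kk n + B.B.l) ≤ 0 := by unfold sw; rw [if_neg hj]
    refine (SB.zS_gen n hν hD (sw_nonneg j) (sw_neg j _) hw ht).trans ?_
    rw [zero_mul]
    split_ifs <;> positivity

lemma bk_wz (B : SB) {ν D : ℝ} (hν : 0 < ν) {n : ℕ} (hn : n ≠ 0) (hD : B.s * N B.B.l ≤ D)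
    (hD' : B.s⁻¹ * (‖B.B.bet ν‖ * N B.B.a) ≤ D) {t : ℝ} (ht : 0 ≤ t) (j : ℕ) :
    bk (fun k => B.wS ν n k t + B.zS ν n k t) j ≤ if j ∈ TT B.B n then 6 * D else 0 := by
  refine (bk_add _ _ j).trans ((add_le_add (bk_wS B hν hn hD ht j) (bk_zS B hν hn hD' ht j)).trans ?_)
  split_ifs <;> linarith

/-- the waves in a Sobolev space of negative order -/
lemma gw_wz (B : SB) {ν D s R : ℝ} (hν : 0 < ν) (hs1 : 1 ≤ s) {n : ℕ} (hn : n ≠ 0) (hR : 0 < R)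
    (hRn : R ≤ n) (hD : B.s * N B.B.l ≤ D) (hD' : B.s⁻¹ * (‖B.B.bet ν‖ * N B.B.a) ≤ D) {t : ℝ}
    (ht : 0 ≤ t) :
    ∑' k, gw s k * ‖B.wS ν n k t + B.zS ν n k t‖ ≤ 2 * (D * R ^ (1 - s)) := by
  have hn0 : (0 : ℝ) < n := by exact_mod_cast Nat.pos_of_ne_zero hn
  have hs := B.hs
  have hD0 : 0 ≤ D := le_trans (by positivity) hD
  have he := ex_le_one hν n ht
  have he0 := ex_pos ν n t
  have h3 : (n : ℝ) ^ (-s) * (D * n * ex ν n t) ≤ D * R ^ (1 - s) := by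
    have e : (n : ℝ) ^ (-s) * (D * n * 1) = D * (n : ℝ) ^ (1 - s) := by
      have : (n : ℝ) ^ (1 - s) = (n : ℝ) ^ (-s) * n := by
        rw [show (1 - s) = -s + 1 by ring, Real.rpow_add hn0, Real.rpow_one]
      rw [this]
      ring
    calc (n : ℝ) ^ (-s) * (D * n * ex ν n t) ≤ (n : ℝ) ^ (-s) * (D * n * 1) := by gcongr
      _ = D * (n : ℝ) ^ (1 - s) := e
      _ ≤ _ := mul_le_mul_of_nonneg_left (Real.rpow_le_rpow_of_nonpos hR hRn (by linarith)) hD0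
  have h1 := SB.wS_gen (B := B) n hν hD (f := gw s) (gw_nonneg s) (gw_neg s _)
    (gw_le (by linarith) hn (sq_kk_ge B.B n)) ht
  have h2 := SB.zS_gen (B := B) n hν hD' (f := gw s) (gw_nonneg s) (gw_neg s _)
    (gw_le (by linarith) hn (sq_kkl_ge B.B n)) ht
  have s1 := (B.wFS ν n hn).summ (gw s) t
  have s2 := (B.zFS ν n).summ (gw s) t
  have s3 := ((B.wFS ν n hn).add (B.zFS ν n)).summ (gw s) t
  have h := s3.tsum_le_tsum (fun k => (?_ : _ ≤ gw s k * ‖B.wS ν n k t‖ + gw s k * ‖B.zS ν n k t‖))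
    (s1.add s2)
  · rw [s1.tsum_add s2] at h
    linarith
  · rw [← mul_add]
    exact mul_le_mul_of_nonneg_left (norm_add_le _ _) (gw_nonneg s k)

lemma uB_time (B : Blk) (ν : ℝ) (n : ℕ) (k : K3) (t : ℝ) :
    B.uB ν n k t = Real.exp (-(B.Gam ν n * t)) • B.uB ν n k 0 := by
  unfold uB pr sg
  split_ifs <;> simp [smul_add]

lemma uB_zero_indep (B : Blk) (ν : ℝ) (n n' : ℕ) (k : K3) : B.uB ν n k 0 = B.uB ν n' k 0 := by
  rw [uB_zero, uB_zero]

lemma Gam_le (B : Blk) {ν : ℝ} (hν : 0 < ν) {n : ℕ} (hn : n ≠ 0) :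
    B.Gam ν n ≤ 3 * (cc ν * (FM.sq B.l * FM.sq B.a)) * (n : ℝ) ^ 2 := by
  have e : B.Gam ν n = 2 * lam ν (B.kk n) + lam ν B.l := by
    unfold Gam
    rw [lam_kkl]
    ring
  rw [e, lam_kk]
  have h1 : lam ν B.l = cc ν * FM.sq B.l := by unfold lam cc; ring
  have h2 := sq_ge_one B.ha
  have h3 := sq_nonneg' B.l
  have h4 : (1 : ℝ) ≤ (n : ℝ) ^ 2 := by
    have : (1 : ℝ) ≤ n := by exact_mod_cast Nat.one_le_iff_ne_zero.2 hn
    nlinarith
  have h5 := cc_pos hν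
  have h6 : cc ν * FM.sq B.l ≤ cc ν * (FM.sq B.l * FM.sq B.a) * (n : ℝ) ^ 2 := by
    have h7 : FM.sq B.l ≤ FM.sq B.l * FM.sq B.a := by nlinarith
    have h8 : FM.sq B.l * FM.sq B.a ≤ FM.sq B.l * FM.sq B.a * (n : ℝ) ^ 2 := by
      have : 0 ≤ FM.sq B.l * FM.sq B.a := by positivity
      nlinarith
    calc cc ν * FM.sq B.l ≤ cc ν * (FM.sq B.l * FM.sq B.a * (n : ℝ) ^ 2) := by gcongr; linarith
      _ = _ := by ring
  rw [h1]
  unfold cc at h6 ⊢
  nlinarith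

lemma uB_sum {B : Blk} {ν C : ℝ} (hC : ‖B.A‖ * N B.a ≤ C) (n : ℕ) :
    ∑' k, ‖B.uB ν n k 0‖ ≤ C := by
  have h := tsum_pr_le B.l ((1 / 2 * B.A) • cz B.a) (B.Gam ν n) 0 (fun _ => 1) (fun _ => by norm_num) rfl
  simp only [one_mul, mul_zero, neg_zero, Real.exp_zero, mul_one] at h
  have hv : ‖(1 / 2 * B.A) • cz B.a‖ ≤ 1 / 2 * (‖B.A‖ * N B.a) := by
    refine (norm_smul_cz_le _ _).trans (le_of_eq ?_)
    rw [norm_mul]
    have : ‖(1 / 2 : ℂ)‖ = 1 / 2 := by norm_num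
    rw [this]
    ring
  refine (h : ∑' k, ‖B.uB ν n k 0‖ ≤ _).trans ?_
  linarith

/-- the slow mode before its decay -/
lemma uB_early {B : Blk} {ν C : ℝ} (hν : 0 < ν) (hC : ‖B.A‖ * N B.a ≤ C) {n : ℕ} (hn : n ≠ 0)
    {t r : ℝ} (ht : 0 ≤ t) (hr : (n : ℝ) ^ 2 * t ≤ r) :
    ∑' k, ‖B.uB ν n k t - B.uB ν n k 0‖ ≤ 3 * (cc ν * (FM.sq B.l * FM.sq B.a)) * r * C := by
  have hg := Gam_le B hν hn
  have hG0 : 0 ≤ B.Gam ν n := by
    have := B.Gam_rate n hν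
    have := cc_pos hν
    have : 0 ≤ cc ν * (n : ℝ) ^ 2 := by positivity
    linarith
  have e : ∀ k, ‖B.uB ν n k t - B.uB ν n k 0‖ =
      (1 - Real.exp (-(B.Gam ν n * t))) * ‖B.uB ν n k 0‖ := by
    intro k
    rw [uB_time B ν n k t]
    have : Real.exp (-(B.Gam ν n * t)) • B.uB ν n k 0 - B.uB ν n k 0 =
        (-(1 - Real.exp (-(B.Gam ν n * t)))) • B.uB ν n k 0 := by
      rw [neg_sub, sub_smul, one_smul]
    rw [this, norm_smul, norm_neg, Real.norm_of_nonneg]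
    have : Real.exp (-(B.Gam ν n * t)) ≤ 1 := by
      rw [Real.exp_le_one_iff, neg_nonpos]
      positivity
    linarith
  simp only [e]
  rw [tsum_mul_left]
  have h1 : 1 - Real.exp (-(B.Gam ν n * t)) ≤ B.Gam ν n * t := by
    have := Real.add_one_le_exp (-(B.Gam ν n * t))
    linarith
  have h2 : 0 ≤ 1 - Real.exp (-(B.Gam ν n * t)) := by
    have : Real.exp (-(B.Gam ν n * t)) ≤ 1 := by
      rw [Real.exp_le_one_iff, neg_nonpos]
      positivity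
    linarith
  have h3 := uB_sum (ν := ν) hC n
  have h4 : 0 ≤ ∑' k, ‖B.uB ν n k 0‖ := tsum_nonneg fun _ => norm_nonneg _
  have h5 : B.Gam ν n * t ≤ 3 * (cc ν * (FM.sq B.l * FM.sq B.a)) * r := by
    have h6 := cc_pos hν
    have h7 := sq_nonneg' B.l
    have h8 := sq_nonneg' B.a
    calc B.Gam ν n * t ≤ 3 * (cc ν * (FM.sq B.l * FM.sq B.a)) * (n : ℝ) ^ 2 * t := by gcongr
      _ = 3 * (cc ν * (FM.sq B.l * FM.sq B.a)) * ((n : ℝ) ^ 2 * t) := by ring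
      _ ≤ _ := by gcongr
  exact mul_le_mul (h1.trans h5) h3 h4 ((h2.trans h1).trans h5)

/-- the slow mode after its decay -/
lemma uB_late {B : Blk} {ν C : ℝ} (hν : 0 < ν) (hC : ‖B.A‖ * N B.a ≤ C) {n : ℕ}
    {t r : ℝ} (ht : 0 ≤ t) (hr0 : 0 < r) (hr : r ≤ (n : ℝ) ^ 2 * t) :
    ∑' k, ‖B.uB ν n k t‖ ≤ 1 / (cc ν * r) * C := by
  have hc := cc_pos hν
  have e : ∀ k, ‖B.uB ν n k t‖ = Real.exp (-(B.Gam ν n * t)) * ‖B.uB ν n k 0‖ := by
    intro k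
    rw [uB_time B ν n k t, norm_smul, Real.norm_of_nonneg (Real.exp_pos _).le]
  simp only [e]
  rw [tsum_mul_left]
  have h1 : Real.exp (-(B.Gam ν n * t)) ≤ 1 / (cc ν * r) := by
    rw [Real.exp_neg, ← one_div]
    have h2 : cc ν * r ≤ B.Gam ν n * t := by
      have := B.Gam_rate n hν
      calc cc ν * r ≤ cc ν * ((n : ℝ) ^ 2 * t) := by gcongr
        _ = cc ν * (n : ℝ) ^ 2 * t := by ring
        _ ≤ _ := by gcongr
    refine one_div_le_one_div_of_le (by positivity) ?_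
    have := Real.add_one_le_exp (B.Gam ν n * t)
    linarith
  exact mul_le_mul h1 (uB_sum (ν := ν) hC n) (tsum_nonneg fun _ => norm_nonneg _) (by positivity)

/-! ### division into equal parts -/

/-- a block with an `M`-th part of the amplitude -/
noncomputable def spl (B : Blk) (M : ℕ) : Blk := { B with A := B.A / M }

/-- the part with two waves of comparable sizes -/
noncomputable def sb (B : Blk) {M : ℕ} (hM : 0 < M) : SB :=
  ⟨spl B M, (Real.sqrt M)⁻¹, by positivity⟩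

lemma spl_uB (B : Blk) (M : ℕ) (ν : ℝ) (n : ℕ) (k : K3) (t : ℝ) :
    (spl B M).uB ν n k t = ((M : ℝ)⁻¹) • B.uB ν n k t := by
  unfold uB
  rw [pr_smul]
  congr 1
  funext i
  simp only [spl, Pi.smul_apply, smul_eq_mul, Complex.real_smul]
  push_cast
  ring

lemma spl_bet (B : Blk) (M : ℕ) (ν : ℝ) : ‖(spl B M).bet ν‖ = ‖B.bet ν‖ / M := by
  have e : (spl B M).bet ν = B.bet ν / M := by
    unfold bet spl
    simp only
    ring
  rw [e, norm_div, Complex.norm_natCast]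

lemma sb_D1 (B : Blk) {M : ℕ} (hM : 0 < M) {ν C : ℝ} (hν : 0 < ν) (hC : B.C ν ≤ C) :
    (sb B hM).s * N (sb B hM).B.l ≤ C / Real.sqrt M := by
  have h := (B.C_parts hν).2.1.trans hC
  have h0 : 0 < Real.sqrt M := Real.sqrt_pos.2 (by exact_mod_cast hM)
  show (Real.sqrt M)⁻¹ * N B.l ≤ _
  rw [div_eq_inv_mul]
  gcongr

lemma sb_D2 (B : Blk) {M : ℕ} (hM : 0 < M) {ν C : ℝ} (hν : 0 < ν) (hC : B.C ν ≤ C) :
    (sb B hM).s⁻¹ * (‖(sb B hM).B.bet ν‖ * N (sb B hM).B.a) ≤ C / Real.sqrt M := by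
  have h := (B.C_parts hν).2.2.1.trans hC
  have hM0 : (0 : ℝ) < M := by exact_mod_cast hM
  have h0 : 0 < Real.sqrt M := Real.sqrt_pos.2 hM0
  show ((Real.sqrt M)⁻¹)⁻¹ * (‖(spl B M).bet ν‖ * N B.a) ≤ _
  rw [spl_bet, inv_inv]
  have e : Real.sqrt M * (‖B.bet ν‖ / M * N B.a) = ‖B.bet ν‖ * N B.a / Real.sqrt M := by
    field_simp
    rw [Real.sq_sqrt hM0.le]
    ring
  rw [e]
  gcongr

lemma sb_Bnd (B : Blk) {M : ℕ} (hM : 0 < M) {ν C : ℝ} (hν : 0 < ν) (hC : B.C ν ≤ C) :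
    (sb B hM).Bnd ν C := by
  have hM1 : (1 : ℝ) ≤ M := by exact_mod_cast hM
  have hC0 : 0 ≤ C := (B.C_nonneg hν).trans hC
  obtain ⟨p1, p2, p3, p4⟩ := B.C_parts hν
  have h1 : 1 ≤ Real.sqrt M := Real.one_le_sqrt.2 hM1
  have h2 : C / Real.sqrt M ≤ C := div_le_self hC0 h1
  have hA : ‖(sb B hM).B.A‖ ≤ ‖B.A‖ := by
    show ‖B.A / (M : ℂ)‖ ≤ _
    rw [norm_div, Complex.norm_natCast]
    exact div_le_self (norm_nonneg _) hM1
  refine ⟨?_, (sb_D1 B hM hν hC).trans h2, (sb_D2 B hM hν hC).trans h2, ?_⟩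
  · calc ‖(sb B hM).B.A‖ * N B.a ≤ ‖B.A‖ * N B.a := by gcongr
      _ ≤ _ := p1.trans hC
  · have h5 := cc_pos hν
    have h6 := sq_nonneg' B.l
    have h7 := sq_nonneg' B.a
    calc cc ν * (FM.sq B.l * FM.sq B.a) * ‖(sb B hM).B.A‖ * N B.a ≤
        cc ν * (FM.sq B.l * FM.sq B.a) * ‖B.A‖ * N B.a := by gcongr
      _ ≤ _ := p4.trans hC

end Pool.Agent.X97.FN
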