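import Pool.Agent.X97.FN.Core

/-!
Global smooth solutions which visit given states.
-/

open MeasureTheory Set Filter Topology
open scoped ContDiff

namespace Pool.Agent.X97.FN

open H459R3.NS FM FM.Blk

/-- the part of the high frequencies -/
noncomputable def tl (K : ℕ) (c : K3 → C3) (k : K3) : C3 := if N k ≤ K then 0 else c k

lemma tail_tendsto {f : K3 → ℝ} (hf : ∀ k, 0 ≤ f k) (hs : Summable f) {η : ℝ} (hη : 0 < η) :
    ∃ K0 : ℕ, ∀ K', K0 ≤ K' → (Summable fun k => if N k ≤ K' then 0 else f k) ∧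
      ∑' k, (if N k ≤ K' then 0 else f k) ≤ η := by
  classical
  obtain ⟨F, hF⟩ : ∃ F : Finset K3, ∑' k, f k - ∑ k ∈ F, f k < η := by
    have h1 : Tendsto (fun F : Finset K3 => ∑' k, f k - ∑ k ∈ F, f k) atTop (𝓝 0) := by
      have h := (hs.hasSum : Tendsto (fun F : Finset K3 => ∑ k ∈ F, f k) atTop
        (𝓝 (∑' k, f k))).const_sub (∑' k, f k)
      rwa [sub_self] at h
    exact (h1.eventually (gt_mem_nhds hη)).exists
  refine ⟨F.sup N, fun K' hK' => ?_⟩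
  have hFK : ∀ k ∈ F, N k ≤ K' := fun k hk => (Finset.le_sup hk).trans hK'
  have f10 : ∀ k, 0 ≤ (if N k ≤ K' then 0 else f k) := fun k => by
    split_ifs
    · exact le_rfl
    · exact hf k
  have sf1 : Summable fun k => if N k ≤ K' then 0 else f k :=
    Summable.of_nonneg_of_le f10 (fun k => by
      split_ifs
      · exact hf k
      · exact le_rfl) hs
  refine ⟨sf1, ?_⟩
  have s2 : Summable fun k => if k ∈ F then f k else 0 :=
    summable_of_ne_finset_zero (s := F) fun k hk => if_neg hk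
  have e2 : ∑' k, (if k ∈ F then f k else 0) = ∑ k ∈ F, f k := by
    rw [tsum_eq_sum (s := F) fun k hk => if_neg hk]
    exact Finset.sum_congr rfl fun k hk => if_pos hk
  have h3 : ∑' k, ((if N k ≤ K' then 0 else f k) + if k ∈ F then f k else 0) ≤ ∑' k, f k := by
    refine (sf1.add s2).tsum_le_tsum (fun k => ?_) hs
    by_cases hk : k ∈ F
    · rw [if_pos (hFK k hk), if_pos hk, zero_add]
    · rw [if_neg hk, add_zero]
      split_ifs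
      · exact hf k
      · exact le_rfl
  rw [sf1.tsum_add s2, e2] at h3
  linarith

lemma tl_FB {q : ℝ} (hq : 0 < q) {c : K3 → C3} (hc : Summable fun j => bk c j ^ q) {η : ℝ}
    (hη : 0 < η) : ∃ K0 : ℕ, ∀ K', K0 ≤ K' → FBle q (tl K' c) η := by
  have h1 := tendsto_sum_nat_add fun j => bk c j ^ q
  obtain ⟨J0, hJ⟩ := (h1.eventually (gt_mem_nhds (Real.rpow_pos_of_pos hη q))).exists
  refine ⟨2 ^ J0, fun K' hK' => ?_⟩
  have b0 : ∀ j, j < J0 → bk (tl K' c) j = 0 := by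
    intro j hj
    unfold bk
    rw [Finset.sum_eq_zero, mul_zero]
    intro k hk
    rw [mem_shl] at hk
    have : 2 ^ (j + 1) ≤ 2 ^ J0 := Nat.pow_le_pow_right (by norm_num) hj
    rw [tl, if_pos (by omega), norm_zero]
  have b1 : ∀ j, bk (tl K' c) j ≤ bk c j := by
    intro j
    unfold bk
    refine mul_le_mul_of_nonneg_left (Finset.sum_le_sum fun k _ => ?_) (by positivity)
    unfold tl
    split_ifs
    · rw [norm_zero]; exact norm_nonneg _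
    · exact le_rfl
  have b2 : ∀ j, bk (tl K' c) j ^ q ≤ bk c j ^ q := fun j =>
    Real.rpow_le_rpow (bk_nonneg _ j) (b1 j) hq.le
  have s1 : Summable fun j => bk (tl K' c) j ^ q :=
    Summable.of_nonneg_of_le (fun j => Real.rpow_nonneg (bk_nonneg _ j) q) b2 hc
  refine ⟨hη.le, s1, ?_⟩
  rw [← s1.sum_add_tsum_nat_add J0, Finset.sum_eq_zero, zero_add]
  · refine le_trans ?_ hJ.le
    exact ((summable_nat_add_iff J0).2 s1).tsum_le_tsum (fun j => b2 _) ((summable_nat_add_iff J0).2 hc)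
  · intro j hj
    rw [b0 j (Finset.mem_range.1 hj), Real.zero_rpow hq.ne']

/-- `H^(-s)` norm -/
def Hle (s : ℝ) (f : K3 → C3) (a : ℝ) : Prop :=
  (Summable fun k => (1 + FM.sq k) ^ (-s) * ∑ i, ‖f k i‖ ^ 2) ∧
    ∑' k, (1 + FM.sq k) ^ (-s) * ∑ i, ‖f k i‖ ^ 2 ≤ a ^ 2

lemma tl_H {s : ℝ} {c : K3 → C3} (hc : Summable fun k => (1 + FM.sq k) ^ (-s) * ∑ i, ‖c k i‖ ^ 2)
    {η : ℝ} (hη : 0 < η) : ∃ K0 : ℕ, ∀ K', K0 ≤ K' → Hle s (tl K' c) η := by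
  have f0 : ∀ k, 0 ≤ (1 + FM.sq k) ^ (-s) * ∑ i, ‖c k i‖ ^ 2 := fun k => mul_nonneg
    (Real.rpow_nonneg (by have := sq_nonneg' k; linarith) _) (Finset.sum_nonneg fun _ _ => sq_nonneg _)
  obtain ⟨K0, h⟩ := tail_tendsto f0 hc (by positivity : 0 < η ^ 2)
  refine ⟨K0, fun K' hK' => ?_⟩
  obtain ⟨h1, h2⟩ := h K' hK'
  have e : (fun k => (1 + FM.sq k) ^ (-s) * ∑ i, ‖tl K' c k i‖ ^ 2) =
      fun k => if N k ≤ K' then 0 else (1 + FM.sq k) ^ (-s) * ∑ i, ‖c k i‖ ^ 2 := by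
    funext k
    unfold tl
    split_ifs
    · simp
    · rfl
  unfold Hle
  rw [e]
  exact ⟨h1, h2⟩

lemma Hle_sub {s a b : ℝ} {X Y : K3 → C3} (ha : 0 ≤ a) (hX : Summable fun k => gw s k * ‖X k‖)
    (hX' : ∑' k, gw s k * ‖X k‖ ≤ a) (hY : Hle s Y b) (hb : 0 ≤ b) :
    Hle s (fun k => X k - Y k) (3 * a + 2 * b) := by
  have g0 : ∀ k, 0 ≤ gw s k * ‖X k‖ := fun k => mul_nonneg (gw_nonneg s k) (norm_nonneg _)
  obtain ⟨sX2, hX2⟩ := tsum_sq_le g0 hX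
  have hle : ∀ k, (1 + FM.sq k) ^ (-s) * ∑ i, ‖(X k - Y k) i‖ ^ 2 ≤
      6 * (gw s k * ‖X k‖) ^ 2 + 2 * ((1 + FM.sq k) ^ (-s) * ∑ i, ‖Y k i‖ ^ 2) := by
    intro k
    have hg : 0 ≤ (1 + FM.sq k) ^ (-s) := Real.rpow_nonneg (by have := sq_nonneg' k; linarith) _
    have h5 := sum_sq_le (X k)
    have h6 : ∑ i, ‖(X k - Y k) i‖ ^ 2 ≤ 2 * ∑ i, ‖X k i‖ ^ 2 + 2 * ∑ i, ‖Y k i‖ ^ 2 := by
      rw [Finset.mul_sum, Finset.mul_sum, ← Finset.sum_add_distrib]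
      refine Finset.sum_le_sum fun i _ => ?_
      have : (X k - Y k) i = X k i - Y k i := rfl
      rw [this]
      have := norm_sub_le (X k i) (Y k i)
      have := norm_nonneg (X k i - Y k i)
      nlinarith [sq_nonneg (‖X k i‖ - ‖Y k i‖)]
    calc (1 + FM.sq k) ^ (-s) * ∑ i, ‖(X k - Y k) i‖ ^ 2 ≤
        (1 + FM.sq k) ^ (-s) * (2 * (3 * ‖X k‖ ^ 2) + 2 * ∑ i, ‖Y k i‖ ^ 2) := by
          gcongr
          linarith
      _ = 6 * ((1 + FM.sq k) ^ (-s) * ‖X k‖ ^ 2) +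
          2 * ((1 + FM.sq k) ^ (-s) * ∑ i, ‖Y k i‖ ^ 2) := by ring
      _ = _ := by rw [gw_sq]; ring
  have s3 : Summable fun k => 6 * (gw s k * ‖X k‖) ^ 2 +
      2 * ((1 + FM.sq k) ^ (-s) * ∑ i, ‖Y k i‖ ^ 2) := (sX2.mul_left 6).add (hY.1.mul_left 2)
  have hn : ∀ k, 0 ≤ (1 + FM.sq k) ^ (-s) * ∑ i, ‖(X k - Y k) i‖ ^ 2 := fun k => mul_nonneg
    (Real.rpow_nonneg (by have := sq_nonneg' k; linarith) _)
    (Finset.sum_nonneg fun _ _ => sq_nonneg _)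
  have s4 := Summable.of_nonneg_of_le hn hle s3
  refine ⟨s4, (s4.tsum_le_tsum hle s3).trans ?_⟩
  rw [(sX2.mul_left 6).tsum_add (hY.1.mul_left 2), tsum_mul_left, tsum_mul_left]
  have h7 : (∑' k, gw s k * ‖X k‖) ^ 2 ≤ a ^ 2 := by
    have : 0 ≤ ∑' k, gw s k * ‖X k‖ := tsum_nonneg g0
    gcongr
  have h8 := hY.2
  nlinarith [mul_nonneg ha hb, sq_nonneg a, sq_nonneg b]

lemma energy_end {ν : ℝ} (hν : 0 < ν) {w : K3 → ℝ → C3} (hw : FSol ν w) {δ ε t : ℝ} (hδ1 : 3 * δ ^ 2 ≤ ε)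
    (ht0 : 0 < t) (hwt : ∑' k, ‖w k t‖ ≤ δ) (hε : t ≤ ε) :
    ∀ r, ε ≤ r → energy (uP w r) ≤ ε := by
  intro r hr
  have h1 := energy_anti (hw.isSol (r + 1)) hν ht0 (hε.trans hr) (by linarith)
  have h2 := energy_le_of_small hw ht0.le hwt
  linarith

/-- the solution visits the states `c 0, …, c m` -/
theorem main {ν : ℝ} (hν : 0 < ν) {c : ℕ → K3 → C3} (m : ℕ) (hh : ∀ j, j ≤ m → Herm (c j))
    (h0 : ∀ j, j ≤ m → c j 0 = 0) (hdiv : ∀ j, j ≤ m → ∀ k, kdot k (c j k) = 0) (K : ℕ)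
    {q s ε Λ : ℝ} (hq : 2 < q) (hs : 1 < s) (hε : 0 < ε) (hΛ : 1 < Λ) (Near : (K3 → C3) → Prop)
    (hN : ∀ j, j ≤ m → ∃ K0 : ℕ, ∀ K', K0 ≤ K' → ∃ η, 0 < η ∧ ∀ Y : K3 → C3, Sml q s η Y →
      Near fun k => Y k - tl K' (c j) k) :
    ∃ (u : ℝ → V → V) (p : ℝ → V → ℝ), (∀ T, IsSol ν T u p) ∧
      (∀ k, N k ≤ K → ∀ i, fr (fun x => u 0 x i) k = c 0 k i) ∧
      (∃ S : Finset K3, ∀ k, k ∉ S → ∀ i, fr (fun x => u 0 x i) k = 0) ∧
      (∃ a b : ℕ → ℝ, a 0 = 0 ∧ (∀ j, 0 ≤ a j ∧ a j < b j ∧ Λ * a j ≤ b j) ∧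
        (∀ j, j < m → b j < a (j + 1)) ∧ b m < ε ∧
        ∀ j, j ≤ m → ∀ t ∈ Icc (a j) (b j), Near fun k i => fr (fun x => u t x i) k - c j k i) ∧
      ∀ t, ε ≤ t → energy (u t) ≤ ε := by
  classical
  set c' : ℕ → K3 → C3 := fun j => if j ≤ m then c j else 0 with hc'
  have ec : ∀ j, j ≤ m → c' j = c j := fun j hj => by simp only [hc', if_pos hj]
  have hh' : ∀ j, Herm (c' j) := by
    intro j
    by_cases hj : j ≤ m
    · rw [ec j hj]; exact hh j hj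
    · intro k
      simp only [hc', if_neg hj]
      exact (cj_zero).symm
  have h0' : ∀ j, c' j 0 = 0 := by
    intro j
    by_cases hj : j ≤ m
    · rw [ec j hj]; exact h0 j hj
    · simp only [hc', if_neg hj]
      rfl
  have hd' : ∀ j k, kdot k (c' j k) = 0 := by
    intro j k
    by_cases hj : j ≤ m
    · rw [ec j hj]; exact hdiv j hj k
    · simp only [hc', if_neg hj]
      exact kdot_zero k
  choose! K0 hK0 using hN
  set K' : ℕ := max K ((Finset.range (m + 1)).sup K0) with hK'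
  have hKj : ∀ j, j ≤ m → K0 j ≤ K' := fun j hj =>
    (Finset.le_sup (Finset.mem_range.2 (Nat.lt_succ_of_le hj))).trans (le_max_right _ _)
  have hN' : ∀ j, j ≤ m → ∃ η, 0 < η ∧ ∀ Y : K3 → C3, Sml q s η Y →
      Near fun k => Y k - tl K' (c j) k := fun j hj => hK0 j hj K' (hKj j hj)
  choose! η hη hY using hN'
  have hne : (Finset.range (m + 1)).Nonempty := Finset.nonempty_range_iff.2 (by omega)
  obtain ⟨δ, hδ0, hδ1, hδ2, hδ3⟩ : ∃ δ : ℝ, 0 < δ ∧ δ ≤ ε / 4 ∧ δ ≤ 1 ∧ ∀ j, j ≤ m → δ ≤ η j := by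
    refine ⟨min (min (ε / 4) 1) ((Finset.range (m + 1)).inf' hne η), ?_,
      (min_le_left _ _).trans (min_le_left _ _), (min_le_left _ _).trans (min_le_right _ _),
      fun j hj => (min_le_right _ _).trans (Finset.inf'_le _ (Finset.mem_range.2 (by omega)))⟩
    refine lt_min (lt_min (by positivity) one_pos) ?_
    exact (Finset.lt_inf'_iff _).2 fun j hj => hη j (Nat.lt_succ_iff.1 (Finset.mem_range.1 hj))
  obtain ⟨w, hw, hlow, ⟨S, hS⟩, ⟨a, b, ha0, hab, hba, hbm, hTj⟩, t, ht, hwt⟩ :=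
    core hν m hh' h0' hd' K' hq hs hδ0 hε hΛ
  refine ⟨uP w, pP w, hw.isSol, ?_, ⟨S, fun k hk i => ?_⟩, ⟨a, b, ha0, hab, hba, hbm, ?_⟩, ?_⟩
  · intro k hk i
    rw [hw.fr_eq le_rfl i k, hlow k (hk.trans (le_max_left _ _)), ec 0 (Nat.zero_le m)]
  · rw [hw.fr_eq le_rfl i k, hS k hk]
    rfl
  · intro j hj r hr
    obtain ⟨Y, hY1, hY2⟩ := hTj j hj r hr
    have h3 : Sml q s (η j) Y := by
      obtain ⟨a1, a2, a3⟩ := hY2
      exact ⟨a1.mono (by linarith) (hδ3 j hj), a2, a3.trans (hδ3 j hj)⟩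
    have h4 := hY j hj Y h3
    have e : (fun k i => fr (fun x => uP w r x i) k - c j k i) =
        fun k => Y k - tl K' (c j) k := by
      funext k i
      rw [hw.fr_eq ((hab j).1.trans hr.1) i k, hY1 k, ec j hj]
      unfold tl
      split_ifs
      · simp
      · simp
    rw [e]
    exact h4
  · have ht0 : 0 < t := by linarith [ht.1]
    refine energy_end hν hw ?_ ht0 hwt ht.2
    nlinarith

/-- states in the Fourier-Besov space -/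
theorem main_FB {ν : ℝ} (hν : 0 < ν) {c : ℕ → K3 → C3} (m : ℕ) (hh : ∀ j, j ≤ m → Herm (c j))
    (h0 : ∀ j, j ≤ m → c j 0 = 0) (hdiv : ∀ j, j ≤ m → ∀ k, kdot k (c j k) = 0) (K : ℕ)
    {q ε Λ : ℝ} (hq : 2 < q) (hε : 0 < ε) (hΛ : 1 < Λ)
    (hc : ∀ j, j ≤ m → Summable fun i => bk (c j) i ^ q) :
    ∃ (u : ℝ → V → V) (p : ℝ → V → ℝ), (∀ T, IsSol ν T u p) ∧
      (∀ k, N k ≤ K → ∀ i, fr (fun x => u 0 x i) k = c 0 k i) ∧
      (∃ S : Finset K3, ∀ k, k ∉ S → ∀ i, fr (fun x => u 0 x i) k = 0) ∧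
      (∃ a b : ℕ → ℝ, a 0 = 0 ∧ (∀ j, 0 ≤ a j ∧ a j < b j ∧ Λ * a j ≤ b j) ∧
        (∀ j, j < m → b j < a (j + 1)) ∧ b m < ε ∧
        ∀ j, j ≤ m → ∀ t ∈ Icc (a j) (b j),
          FBle q (fun k i => fr (fun x => u t x i) k - c j k i) ε) ∧
      ∀ t, ε ≤ t → energy (u t) ≤ ε := by
  refine main hν m hh h0 hdiv K hq (s := 2) (by norm_num) hε hΛ (fun f => FBle q f ε) ?_
  intro j hj
  obtain ⟨K0, hK0⟩ := tl_FB (by linarith) (hc j hj) (half_pos hε)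
  refine ⟨K0, fun K' hK' => ⟨ε / 2, half_pos hε, fun Y hY => ?_⟩⟩
  have h1 := hY.1.add (by linarith) (hK0 K' hK').neg
  rw [add_halves] at h1
  simpa only [sub_eq_add_neg] using h1

/-- states in the Sobolev space -/
theorem main_H {ν : ℝ} (hν : 0 < ν) {c : ℕ → K3 → C3} (m : ℕ) (hh : ∀ j, j ≤ m → Herm (c j))
    (h0 : ∀ j, j ≤ m → c j 0 = 0) (hdiv : ∀ j, j ≤ m → ∀ k, kdot k (c j k) = 0) (K : ℕ)
    {s ε Λ : ℝ} (hs : 1 < s) (hε : 0 < ε) (hΛ : 1 < Λ)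
    (hc : ∀ j, j ≤ m → Summable fun k => (1 + FM.sq k) ^ (-s) * ∑ i, ‖c j k i‖ ^ 2) :
    ∃ (u : ℝ → V → V) (p : ℝ → V → ℝ), (∀ T, IsSol ν T u p) ∧
      (∀ k, N k ≤ K → ∀ i, fr (fun x => u 0 x i) k = c 0 k i) ∧
      (∃ S : Finset K3, ∀ k, k ∉ S → ∀ i, fr (fun x => u 0 x i) k = 0) ∧
      (∃ a b : ℕ → ℝ, a 0 = 0 ∧ (∀ j, 0 ≤ a j ∧ a j < b j ∧ Λ * a j ≤ b j) ∧
        (∀ j, j < m → b j < a (j + 1)) ∧ b m < ε ∧
        ∀ j, j ≤ m → ∀ t ∈ Icc (a j) (b j),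
          Hle s (fun k i => fr (fun x => u t x i) k - c j k i) ε) ∧
      ∀ t, ε ≤ t → energy (u t) ≤ ε := by
  refine main hν m hh h0 hdiv K (q := 3) (by norm_num) hs hε hΛ (fun f => Hle s f ε) ?_
  intro j hj
  obtain ⟨K0, hK0⟩ := tl_H (hc j hj) (by positivity : 0 < ε / 5)
  refine ⟨K0, fun K' hK' => ⟨ε / 5, by positivity, fun Y hY => ?_⟩⟩
  have h1 := Hle_sub (by positivity) hY.2.1 hY.2.2 (hK0 K' hK') (by positivity)
  have e : 3 * (ε / 5) + 2 * (ε / 5) = ε := by ring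
  rwa [e] at h1

end Pool.Agent.X97.FN
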