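import Pool.Agent.X97.FN.Est

/-!
The stages and the parameters.
-/

open MeasureTheory Set Filter Topology
open scoped Pointwise

namespace Pool.Agent.X97.FN

open H459R3.NS FM FM.Blk

/-- the indices: stage, mode, copy -/
abbrev Ix := ℕ × ((K3 × Bool) × ℕ)

/-- the finite set of indices -/
noncomputable def JX (m K M : ℕ) : Finset Ix :=
  Finset.range (m + 1) ×ˢ (JJ K ×ˢ Finset.range M)

lemma mem_JX {m K M : ℕ} {i : Ix} :
    i ∈ JX m K M ↔ i.1 ≤ m ∧ i.2.1 ∈ JJ K ∧ i.2.2 < M := by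
  unfold JX
  rw [Finset.mem_product, Finset.mem_product, Finset.mem_range, Finset.mem_range, Nat.lt_succ_iff]

lemma card_JX (m K M : ℕ) : (JX m K M).card = (Finset.range (m + 1) ×ˢ JJ K).card * M := by
  unfold JX
  rw [Finset.card_product, Finset.card_product, Finset.card_product, Finset.card_range,
    Finset.card_range, mul_assoc]

lemma low_stage {K : ℕ} {d : K3 → C3} (hh : Herm d) (h0 : d 0 = 0) {B : K3 × Bool → Blk}
    (hB : ∀ k, k ≠ 0 → (B (k, true)).l = k ∧ (B (k, false)).l = k ∧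
      (B (k, true)).A • cz (B (k, true)).a + (B (k, false)).A • cz (B (k, false)).a = d k)
    {M : ℕ} (hM : 0 < M) (ν : ℝ) (n : (K3 × Bool) × ℕ → ℕ) (k : K3) :
    ∑ x ∈ JJ K ×ˢ Finset.range M, (sb (B x.1) hM).B.uB ν (n x) k 0 = if N k ≤ K then d k else 0 := by
  rw [Finset.sum_product, ← low_sum hh h0 hB ν (fun _ => 0) k]
  refine Finset.sum_congr rfl fun p _ => ?_
  have e : ∀ y ∈ Finset.range M, (sb (B (p, y).1) hM).B.uB ν (n (p, y)) k 0 =
      (M : ℝ)⁻¹ • (B p).uB ν 0 k 0 := by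
    intro y _
    show (spl (B p) M).uB ν (n (p, y)) k 0 = _
    rw [spl_uB, uB_zero_indep (B p) ν _ 0]
  rw [Finset.sum_congr rfl e, Finset.sum_const, Finset.card_range]
  have hM0 : (M : ℝ) ≠ 0 := by exact_mod_cast hM.ne'
  rw [← Nat.cast_smul_eq_nsmul ℝ, smul_smul, mul_inv_cancel₀ hM0, one_smul]

lemma telescope (m : ℕ) (c : ℕ → C3) {j : ℕ} (hj : j ≤ m) :
    ∑ j' ∈ Finset.range (m + 1), (if j ≤ j' then (c j' - if j' < m then c (j' + 1) else 0) else 0) =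
      c j := by
  induction m generalizing c j with
  | zero =>
    have : j = 0 := by omega
    subst this
    simp
  | succ m ih =>
    rw [Finset.sum_range_succ']
    rcases Nat.eq_zero_or_pos j with h | h
    · subst h
      have := ih (fun j => c (j + 1)) (Nat.zero_le m)
      simp only [Nat.zero_le, if_true, Nat.succ_lt_succ_iff, Nat.zero_lt_succ] at this ⊢
      rw [this]
      abel
    · obtain ⟨j, rfl⟩ := Nat.exists_eq_succ_of_ne_zero h.ne'
      have := ih (fun j => c (j + 1)) (Nat.succ_le_succ_iff.1 hj)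
      simp only [Nat.succ_eq_add_one, Nat.add_le_add_iff_right, Nat.add_lt_add_iff_right] at this ⊢
      rw [this]
      simp

lemma exists_M {q δ : ℝ} (hq : 2 < q) (hδ : 0 < δ) (p : ℕ) {C : ℝ} (hC : 0 ≤ C) :
    ∃ M : ℕ, 0 < M ∧ 2 * ((p * M : ℕ) : ℝ) * (6 * (C / Real.sqrt M)) ^ q ≤ δ ^ q := by
  have cast := tendsto_natCast_atTop_atTop (R := ℝ)
  have h1 : Tendsto (fun M : ℕ => 2 * (p : ℝ) * (6 * C) ^ q * (M : ℝ) ^ (1 - q / 2)) atTop (𝓝 0) := by
    have h := (tendsto_rpow_neg_atTop (y := q / 2 - 1) (by linarith)).comp cast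
    have h2 := h.const_mul (2 * (p : ℝ) * (6 * C) ^ q)
    rw [mul_zero] at h2
    refine h2.congr fun M => ?_
    show 2 * (p : ℝ) * (6 * C) ^ q * (M : ℝ) ^ (-(q / 2 - 1)) = _
    rw [neg_sub]
  obtain ⟨M, h2, h3⟩ := ((h1.eventually (gt_mem_nhds (Real.rpow_pos_of_pos hδ q))).and
    (eventually_gt_atTop 0)).exists
  have hM : (0 : ℝ) < M := by exact_mod_cast h3
  refine ⟨M, h3, le_trans (le_of_eq ?_) h2.le⟩
  have e1 : 6 * (C / Real.sqrt M) = (6 * C) * (M : ℝ) ^ (-(1 / 2 : ℝ)) := by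
    rw [Real.rpow_neg hM.le, ← Real.sqrt_eq_rpow]
    ring
  rw [e1, Real.mul_rpow (by positivity) (Real.rpow_nonneg hM.le _), ← Real.rpow_mul hM.le]
  have e2 : (M : ℝ) ^ (1 - q / 2) = M * (M : ℝ) ^ (-(1 / 2) * q) := by
    rw [← Real.rpow_one_add' hM.le (by linarith)]
    congr 1
    ring
  rw [e2]
  push_cast
  ring

/-- the exponent of the frequency -/
def ex' (m L : ℕ) (e0 : (K3 × Bool) × ℕ → ℕ) (i : Ix) : ℕ := (m - i.1) * L + e0 i.2

lemma ex'_inj {m L : ℕ} {e0 : (K3 × Bool) × ℕ → ℕ} (he : Function.Injective e0) {i i' : Ix}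
    (hi : i.1 ≤ m) (hi' : i'.1 ≤ m) (h1 : e0 i.2 < L) (h2 : e0 i'.2 < L)
    (h : ex' m L e0 i = ex' m L e0 i') : i = i' := by
  unfold ex' at h
  have hL : 0 < L := by omega
  have a1 : ((m - i.1) * L + e0 i.2) / L = m - i.1 := by
    rw [Nat.add_div_of_dvd_right (Dvd.intro_left _ rfl), Nat.mul_div_cancel _ hL,
      Nat.div_eq_of_lt h1, add_zero]
  have a2 : ((m - i'.1) * L + e0 i'.2) / L = m - i'.1 := by
    rw [Nat.add_div_of_dvd_right (Dvd.intro_left _ rfl), Nat.mul_div_cancel _ hL,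
      Nat.div_eq_of_lt h2, add_zero]
  have a3 : m - i.1 = m - i'.1 := by rw [← a1, ← a2, h]
  have a4 : i.1 = i'.1 := by omega
  rw [a3] at h
  have a5 : e0 i.2 = e0 i'.2 := by omega
  exact Prod.ext a4 (he a5)

/-- the times of the visits -/
noncomputable def Tj (m L R j : ℕ) : ℝ := ((R : ℝ) ^ (2 * ((m + 1 - j) * L) + 1))⁻¹

lemma Tj_pos {m L R j : ℕ} (hR : 1 ≤ R) : 0 < Tj m L R j := by
  have hR1 : (1 : ℝ) ≤ R := by exact_mod_cast hR
  unfold Tj
  positivity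

lemma Tj_le {m L R j : ℕ} (hR : 1 ≤ R) : Tj m L R j ≤ 1 / R := by
  have hR1 : (1 : ℝ) ≤ R := by exact_mod_cast hR
  unfold Tj
  rw [inv_eq_one_div]
  refine one_div_le_one_div_of_le (by linarith) ?_
  exact le_self_pow₀ hR1 (by omega)

lemma Tj_lt {m L R j : ℕ} (hR : 1 ≤ R) (hL : 0 < L) (hj : j < m) :
    R * Tj m L R j ≤ Tj m L R (j + 1) := by
  have hR1 : (1 : ℝ) ≤ R := by exact_mod_cast hR
  have hR0 : (0 : ℝ) < R := by linarith
  unfold Tj
  have h1 : m + 1 - j = (m + 1 - (j + 1)) + 1 := by omega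
  have h2 : 2 * ((m + 1 - (j + 1)) * L) + 1 + 1 ≤ 2 * ((m + 1 - j) * L) + 1 := by
    rw [h1, add_mul, one_mul]
    omega
  rw [← div_eq_mul_inv, div_le_iff₀ (by positivity), inv_mul_eq_div, le_div_iff₀ (by positivity),
    ← pow_succ']
  exact pow_le_pow_right₀ hR1 h2

lemma Tj_early {m L R j : ℕ} {e0 : (K3 × Bool) × ℕ → ℕ} {i : Ix} (hR : 1 ≤ R) (hi : i.1 ≤ m)
    (h1 : e0 i.2 < L) (hj : j ≤ i.1) :
    ((R ^ (ex' m L e0 i + 1) : ℕ) : ℝ) ^ 2 * Tj m L R j ≤ 1 / R := by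
  have hR1 : (1 : ℝ) ≤ R := by exact_mod_cast hR
  have hR0 : (0 : ℝ) < R := by linarith
  unfold Tj
  rw [← div_eq_mul_inv, div_le_div_iff₀ (by positivity) hR0, one_mul]
  push_cast
  rw [← pow_mul, ← pow_succ]
  refine pow_le_pow_right₀ hR1 ?_
  have h2 : ex' m L e0 i + 1 ≤ (m + 1 - j) * L := by
    unfold ex'
    have h3 : (m - i.1 + 1) * L ≤ (m + 1 - j) * L := Nat.mul_le_mul_right _ (by omega)
    rw [add_mul, one_mul] at h3
    omega
  omega

lemma Tj_late {m L R j : ℕ} {e0 : (K3 × Bool) × ℕ → ℕ} {i : Ix} (hR : 1 ≤ R) (hj : i.1 < j)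
    (hjm : j ≤ m) :
    (R : ℝ) ≤ ((R ^ (ex' m L e0 i + 1) : ℕ) : ℝ) ^ 2 * Tj m L R j := by
  have hR1 : (1 : ℝ) ≤ R := by exact_mod_cast hR
  have hR0 : (0 : ℝ) < R := by linarith
  unfold Tj
  rw [← div_eq_mul_inv, le_div_iff₀ (by positivity)]
  push_cast
  rw [← pow_mul, ← pow_succ']
  refine pow_le_pow_right₀ hR1 ?_
  have h2 : (m + 1 - j) * L + 1 ≤ ex' m L e0 i + 1 := by
    unfold ex'
    have h3 : (m + 1 - j) * L ≤ (m - i.1) * L := Nat.mul_le_mul_right _ (by omega)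
    omega
  omega

end Pool.Agent.X97.FN
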