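import Pool.Agent.X97.FN.Asm

/-!
Dyadic shells and the Fourier-Besov norm with index `-1`.
-/

open MeasureTheory Set Filter Topology
open scoped Pointwise

namespace Pool.Agent.X97.FN

open H459R3.NS FM FM.Blk

/-- the dyadic shell `2 ^ j ≤ |k| < 2 ^ (j + 1)` -/
noncomputable def shl (j : ℕ) : Finset K3 :=
  (Finset.Icc (fun _ => -((2 ^ (j + 1) : ℕ) : ℤ)) (fun _ => ((2 ^ (j + 1) : ℕ) : ℤ))).filter
    fun k => 2 ^ j ≤ N k ∧ N k < 2 ^ (j + 1)

lemma mem_shl {j : ℕ} {k : K3} : k ∈ shl j ↔ 2 ^ j ≤ N k ∧ N k < 2 ^ (j + 1) := by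
  unfold shl
  rw [Finset.mem_filter, mem_box]
  constructor
  · exact fun h => h.2
  · exact fun h => ⟨h.2.le, h⟩

lemma neg_mem_shl {j : ℕ} {k : K3} : -k ∈ shl j ↔ k ∈ shl j := by
  rw [mem_shl, mem_shl, FM.N_neg]

lemma shl_unique {j j' : ℕ} {k : K3} (h : k ∈ shl j) (h' : k ∈ shl j') : j = j' := by
  rw [mem_shl] at h h'
  have a : j = Nat.log 2 (N k) := by
    symm
    rw [Nat.log_eq_iff]
    · exact h
    · right
      refine ⟨by norm_num, ?_⟩
      have := Nat.two_pow_pos j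
      omega
  have b : j' = Nat.log 2 (N k) := by
    symm
    rw [Nat.log_eq_iff]
    · exact h'
    · right
      refine ⟨by norm_num, ?_⟩
      have := Nat.two_pow_pos j'
      omega
  rw [a, b]

/-- the size of a shell -/
noncomputable def bk (f : K3 → C3) (j : ℕ) : ℝ := ((2 : ℝ) ^ j)⁻¹ * ∑ k ∈ shl j, ‖f k‖

lemma bk_nonneg (f : K3 → C3) (j : ℕ) : 0 ≤ bk f j := by
  unfold bk
  have : 0 ≤ ∑ k ∈ shl j, ‖f k‖ := Finset.sum_nonneg fun _ _ => norm_nonneg _
  positivity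

lemma bk_add (f g : K3 → C3) (j : ℕ) : bk (fun k => f k + g k) j ≤ bk f j + bk g j := by
  unfold bk
  rw [← mul_add, ← Finset.sum_add_distrib]
  exact mul_le_mul_of_nonneg_left (Finset.sum_le_sum fun _ _ => norm_add_le _ _) (by positivity)

lemma bk_neg (f : K3 → C3) (j : ℕ) : bk (fun k => -f k) j = bk f j := by
  unfold bk
  simp

lemma bk_sum {ι : Type*} (J : Finset ι) (f : ι → K3 → C3) (j : ℕ) :
    bk (fun k => ∑ i ∈ J, f i k) j ≤ ∑ i ∈ J, bk (f i) j := by
  unfold bk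
  rw [← Finset.mul_sum, Finset.sum_comm]
  exact mul_le_mul_of_nonneg_left (Finset.sum_le_sum fun _ _ => norm_sum_le _ _) (by positivity)

/-- the weight of a shell -/
noncomputable def sw (j : ℕ) (k : K3) : ℝ := if k ∈ shl j then ((2 : ℝ) ^ j)⁻¹ else 0

lemma sw_nonneg (j : ℕ) (k : K3) : 0 ≤ sw j k := by
  unfold sw
  split_ifs <;> positivity

lemma sw_neg (j : ℕ) (k : K3) : sw j (-k) = sw j k := by
  unfold sw
  simp only [neg_mem_shl]

lemma sw_le (j : ℕ) {k : K3} : sw j k ≤ 2 / N k := by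
  unfold sw
  split_ifs with h
  · rw [mem_shl] at h
    have h1 : (N k : ℝ) < 2 ^ (j + 1) := by exact_mod_cast h.2
    have h0 : (0 : ℝ) < N k := by
      have := h.1
      have := Nat.two_pow_pos j
      exact_mod_cast (by omega : 0 < N k)
    rw [inv_eq_one_div, div_le_div_iff₀ (by positivity) h0]
    rw [pow_succ] at h1
    linarith
  · positivity

lemma bk_eq (f : K3 → C3) (j : ℕ) : bk f j = ∑' k, sw j k * ‖f k‖ := by
  rw [tsum_eq_sum (s := shl j)]
  · unfold bk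
    rw [Finset.mul_sum]
    refine Finset.sum_congr rfl fun k hk => ?_
    unfold sw
    rw [if_pos hk]
  · intro k hk
    unfold sw
    rw [if_neg hk, zero_mul]

/-- the Fourier-Besov norm with index `-1` and summability `q` is at most `a` -/
def FBle (q : ℝ) (f : K3 → C3) (a : ℝ) : Prop :=
  0 ≤ a ∧ (Summable fun j => bk f j ^ q) ∧ ∑' j, bk f j ^ q ≤ a ^ q

lemma FBle.add {q : ℝ} (hq : 1 ≤ q) {f g : K3 → C3} {a b : ℝ} (hf : FBle q f a) (hg : FBle q g b) :
    FBle q (fun k => f k + g k) (a + b) := by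
  obtain ⟨ha, sf, hf⟩ := hf
  obtain ⟨hb, sg, hg⟩ := hg
  have hq0 : 0 < q := by linarith
  obtain ⟨s1, h1⟩ := Real.Lp_add_le_tsum_of_nonneg hq (bk_nonneg f) (bk_nonneg g) sf sg
  have hle : ∀ j, bk (fun k => f k + g k) j ^ q ≤ (bk f j + bk g j) ^ q := fun j =>
    Real.rpow_le_rpow (bk_nonneg _ j) (bk_add f g j) hq0.le
  have s2 : Summable fun j => bk (fun k => f k + g k) j ^ q :=
    Summable.of_nonneg_of_le (fun j => Real.rpow_nonneg (bk_nonneg _ j) _) hle s1
  refine ⟨by positivity, s2, (s2.tsum_le_tsum hle s1).trans ?_⟩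
  have a1 : (∑' j, bk f j ^ q) ^ (1 / q) ≤ a := by
    have := Real.rpow_le_rpow (tsum_nonneg fun j => Real.rpow_nonneg (bk_nonneg f j) q) hf
      (by positivity : 0 ≤ 1 / q)
    rwa [← Real.rpow_mul ha, mul_one_div_cancel hq0.ne', Real.rpow_one] at this
  have a2 : (∑' j, bk g j ^ q) ^ (1 / q) ≤ b := by
    have := Real.rpow_le_rpow (tsum_nonneg fun j => Real.rpow_nonneg (bk_nonneg g j) q) hg
      (by positivity : 0 ≤ 1 / q)
    rwa [← Real.rpow_mul hb, mul_one_div_cancel hq0.ne', Real.rpow_one] at this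
  have h2 := h1.trans (add_le_add a1 a2)
  have h0 : 0 ≤ ∑' j, (bk f j + bk g j) ^ q := tsum_nonneg fun j =>
    Real.rpow_nonneg (add_nonneg (bk_nonneg f j) (bk_nonneg g j)) q
  have h3 := Real.rpow_le_rpow (Real.rpow_nonneg h0 _) h2 hq0.le
  rwa [← Real.rpow_mul h0, one_div_mul_cancel hq0.ne', Real.rpow_one] at h3

lemma FBle.mono {q : ℝ} (hq : 0 ≤ q) {f : K3 → C3} {a b : ℝ} (hf : FBle q f a) (hab : a ≤ b) :
    FBle q f b :=
  ⟨hf.1.trans hab, hf.2.1, hf.2.2.trans (Real.rpow_le_rpow hf.1 hab hq)⟩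

lemma FBle.neg {q : ℝ} {f : K3 → C3} {a : ℝ} (hf : FBle q f a) : FBle q (fun k => -f k) a := by
  unfold FBle at *
  simpa only [bk_neg] using hf

/-- a bound of the sum of the coefficients over `|k|` -/
lemma FBle_of_chi {q : ℝ} (hq : 1 ≤ q) {f : K3 → C3} {a : ℝ} (ha : 0 ≤ a)
    (h : ∀ F : Finset K3, ∑ k ∈ F, ‖f k‖ / N k ≤ a) : FBle q f (2 * a) := by
  classical
  have h1 : ∀ F : Finset ℕ, ∑ j ∈ F, bk f j ≤ 2 * a := by
    intro F
    have e : ∀ j ∈ F, bk f j ≤ ∑ k ∈ shl j, 2 * (‖f k‖ / N k) := by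
      intro j _
      unfold bk
      rw [Finset.mul_sum]
      refine Finset.sum_le_sum fun k hk => ?_
      have h2 := sw_le j (k := k)
      unfold sw at h2
      rw [if_pos hk] at h2
      calc _ ≤ 2 / (N k : ℝ) * ‖f k‖ := mul_le_mul_of_nonneg_right h2 (norm_nonneg _)
        _ = _ := by ring
    refine (Finset.sum_le_sum e).trans ?_
    rw [← Finset.sum_biUnion]
    · rw [← Finset.mul_sum]
      exact mul_le_mul_of_nonneg_left (h _) (by norm_num)
    · intro j _ j' _ hjj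
      rw [Function.onFun, Finset.disjoint_left]
      exact fun k hk hk' => hjj (shl_unique hk hk')
  have b1 : ∀ j, bk f j ≤ 2 * a := fun j => by
    have := h1 {j}
    simpa using this
  have h2 : ∀ F : Finset ℕ, ∑ j ∈ F, bk f j ^ q ≤ (2 * a) ^ q := by
    intro F
    have e : ∀ j ∈ F, bk f j ^ q ≤ bk f j * (2 * a) ^ (q - 1) := by
      intro j _
      have e1 : bk f j ^ q = bk f j * bk f j ^ (q - 1) := by
        rcases (bk_nonneg f j).eq_or_lt with h | h
        · rw [← h, Real.zero_rpow (by linarith), zero_mul]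
        · rw [← Real.rpow_one_add' h.le (by linarith), add_sub_cancel]
      rw [e1]
      exact mul_le_mul_of_nonneg_left (Real.rpow_le_rpow (bk_nonneg f j) (b1 j) (by linarith))
        (bk_nonneg f j)
    refine (Finset.sum_le_sum e).trans ?_
    rw [← Finset.sum_mul]
    have h4 : 0 ≤ (2 * a) ^ (q - 1) := Real.rpow_nonneg (by positivity) _
    refine (mul_le_mul_of_nonneg_right (h1 F) h4).trans (le_of_eq ?_)
    rw [← Real.rpow_one_add' (by positivity) (by linarith), add_sub_cancel]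
  have s : Summable fun j => bk f j ^ q :=
    summable_of_sum_le (fun j => Real.rpow_nonneg (bk_nonneg f j) q) h2
  exact ⟨by positivity, s, s.tsum_le_of_sum_le h2⟩

/-- superposition of fields with separate shells -/
lemma FBle_sep {ι : Type*} [DecidableEq ι] {q D a : ℝ} (hq : 0 < q) (hD : 0 ≤ D) (ha : 0 ≤ a)
    (J : Finset ι) (T : ι → Finset ℕ) (hT : ∀ i ∈ J, (T i).card ≤ 2)
    (hdis : ∀ i ∈ J, ∀ i' ∈ J, ∀ j, j ∈ T i → j ∈ T i' → i = i') (g : ι → K3 → C3)
    (hg : ∀ i ∈ J, ∀ j, bk (g i) j ≤ if j ∈ T i then D else 0)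
    (h : 2 * (J.card : ℝ) * D ^ q ≤ a ^ q) : FBle q (fun k => ∑ i ∈ J, g i k) a := by
  classical
  set F := J.biUnion T with hF
  have h0 : ∀ j, j ∉ F → bk (fun k => ∑ i ∈ J, g i k) j ^ q = 0 := by
    intro j hj
    have h1 : bk (fun k => ∑ i ∈ J, g i k) j ≤ 0 := by
      refine (bk_sum J g j).trans (Finset.sum_nonpos fun i hi => ?_)
      have := hg i hi j
      rwa [if_neg fun h => hj (Finset.mem_biUnion.2 ⟨i, hi, h⟩)] at this
    rw [le_antisymm h1 (bk_nonneg _ j), Real.zero_rpow hq.ne']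
  have h1 : ∀ j ∈ F, bk (fun k => ∑ i ∈ J, g i k) j ^ q ≤ D ^ q := by
    intro j hj
    obtain ⟨i0, hi0, hj0⟩ := Finset.mem_biUnion.1 hj
    refine Real.rpow_le_rpow (bk_nonneg _ j) ?_ hq.le
    refine (bk_sum J g j).trans ?_
    rw [← Finset.add_sum_erase J _ hi0]
    have a1 := hg i0 hi0 j
    rw [if_pos hj0] at a1
    have a2 : ∑ i ∈ J.erase i0, bk (g i) j ≤ 0 := by
      refine Finset.sum_nonpos fun i hi => ?_
      have hi' := Finset.mem_of_mem_erase hi
      have := hg i hi' j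
      rwa [if_neg fun h => Finset.ne_of_mem_erase hi (hdis i hi' i0 hi0 j h hj0)] at this
    linarith
  have s : Summable fun j => bk (fun k => ∑ i ∈ J, g i k) j ^ q :=
    summable_of_ne_finset_zero (s := F) h0
  refine ⟨ha, s, ?_⟩
  rw [tsum_eq_sum (s := F) h0]
  have hcard : (F.card : ℝ) ≤ 2 * J.card := by
    have h2 : F.card ≤ ∑ i ∈ J, (T i).card := Finset.card_biUnion_le
    have h3 : ∑ i ∈ J, (T i).card ≤ ∑ _i ∈ J, 2 := Finset.sum_le_sum hT
    rw [Finset.sum_const, smul_eq_mul] at h3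
    have : F.card ≤ 2 * J.card := by omega
    exact_mod_cast this
  refine (Finset.sum_le_sum h1).trans ?_
  rw [Finset.sum_const, nsmul_eq_mul]
  have : 0 ≤ D ^ q := Real.rpow_nonneg hD q
  exact (mul_le_mul_of_nonneg_right hcard this).trans h

end Pool.Agent.X97.FN
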