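import Pool.Agent.X97.FN.Par

/-!
The solution at the times of the visits.
-/

open MeasureTheory Set Filter Topology
open scoped Pointwise

namespace Pool.Agent.X97.FN

open H459R3.NS FM FM.Blk

lemma gw_le_inv {s : ℝ} (hs : 1 ≤ s) {k : K3} (hk : k ≠ 0) : gw s k ≤ 1 / N k := by
  have h1 : (1 : ℝ) ≤ N k := by
    have : N k ≠ 0 := fun h => hk (N_eq_zero.1 h)
    exact_mod_cast Nat.one_le_iff_ne_zero.2 this
  have h2 := FM.N_sq_le k
  have h3 : gw s k ≤ ((N k : ℝ) ^ 2) ^ (-(s / 2)) := by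
    unfold gw
    exact Real.rpow_le_rpow_of_nonpos (by positivity) (by linarith) (by linarith)
  refine h3.trans ?_
  rw [← Real.rpow_natCast, ← Real.rpow_mul (by linarith)]
  have e : ((2 : ℕ) : ℝ) * -(s / 2) = -s := by push_cast; ring
  rw [e, one_div, ← Real.rpow_neg_one]
  exact Real.rpow_le_rpow_of_exponent_le h1 (by linarith)

lemma tsum_norm_sum_le' {ι : Type*} {S : Finset K3} (J : Finset ι) {g : ι → K3 → ℝ → C3}
    (h : ∀ i ∈ J, FS S (g i)) (t : ℝ) :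
    ∑' k, ‖∑ i ∈ J, g i k t‖ ≤ ∑ i ∈ J, ∑' k, ‖g i k t‖ := by
  classical
  have := tsum_norm_sum_le J h (fun _ => 1) (fun _ => by norm_num) t
  simpa using this

/-- the norms of an error -/
def Sml (q s δ : ℝ) (Y : K3 → C3) : Prop :=
  FBle q Y δ ∧ (Summable fun k => gw s k * ‖Y k‖) ∧ ∑' k, gw s k * ‖Y k‖ ≤ δ

lemma Sml.add {q s δ δ' : ℝ} (hq : 1 ≤ q) {Y Y' : K3 → C3} (h : Sml q s δ Y) (h' : Sml q s δ' Y') :
    Sml q s (δ + δ') fun k => Y k + Y' k := by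
  obtain ⟨a1, a2, a3⟩ := h
  obtain ⟨b1, b2, b3⟩ := h'
  have s3 := a2.add b2
  have hle : ∀ k, gw s k * ‖Y k + Y' k‖ ≤ gw s k * ‖Y k‖ + gw s k * ‖Y' k‖ := fun k => by
    rw [← mul_add]
    exact mul_le_mul_of_nonneg_left (norm_add_le _ _) (gw_nonneg s k)
  have s4 : Summable fun k => gw s k * ‖Y k + Y' k‖ :=
    Summable.of_nonneg_of_le (fun k => mul_nonneg (gw_nonneg s k) (norm_nonneg _)) hle s3
  refine ⟨a1.add hq b1, s4, ?_⟩
  have h5 := s4.tsum_le_tsum hle s3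
  rw [a2.tsum_add b2] at h5
  linarith

lemma Sml_of_chi {q s a : ℝ} (hq : 1 ≤ q) (hs : 1 ≤ s) {f : K3 → C3} (ha : 0 ≤ a) (h0 : f 0 = 0)
    (h : ∀ F : Finset K3, ∑ k ∈ F, ‖f k‖ / N k ≤ a) : Sml q s (2 * a) f := by
  have g1 : ∀ k, 0 ≤ gw s k * ‖f k‖ := fun k => mul_nonneg (gw_nonneg s k) (norm_nonneg _)
  have g2 : ∀ F : Finset K3, ∑ k ∈ F, gw s k * ‖f k‖ ≤ 2 * a := by
    intro F
    refine (Finset.sum_le_sum fun k _ => (?_ : _ ≤ ‖f k‖ / N k)).trans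
      ((h F).trans (by linarith))
    by_cases hk : k = 0
    · subst hk
      rw [h0]
      simp
    · rw [div_eq_mul_one_div, mul_comm]
      exact mul_le_mul_of_nonneg_left (gw_le_inv hs hk) (norm_nonneg _)
  have g3 := summable_of_sum_le g1 g2
  exact ⟨FBle_of_chi hq ha h, g3, g3.tsum_le_of_sum_le g2⟩

section
variable {ι : Type*} [DecidableEq ι] {J : Finset ι} {B : ι → SB} {n : ι → ℕ} {ν : ℝ}

/-- the sum of the waves at a time -/
noncomputable def WW (J : Finset ι) (B : ι → SB) (n : ι → ℕ) (ν t : ℝ) (k : K3) : C3 :=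
  ∑ i ∈ J, ((B i).wS ν (n i) k t + (B i).zS ν (n i) k t)

lemma wz_FS (hn : ∀ i ∈ J, n i ≠ 0) : ∀ i ∈ J,
    FS (S0 J B n) (fun k t => (B i).wS ν (n i) k t + (B i).zS ν (n i) k t) := fun i hi =>
  (((B i).wFS ν (n i) (hn i hi)).mono (supp_sub hi)).add (((B i).zFS ν (n i)).mono (supp_sub hi))

lemma WW_sml {q s δ C R E : ℝ} (hq : 2 < q) (hs : 1 < s) (hδ : 0 < δ) (hν : 0 < ν)
    (hn : ∀ i ∈ J, n i ≠ 0) {R' : ℕ} (hR : 0 < R) (hRn : ∀ i ∈ J, R ≤ n i)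
    (hC : ∀ i ∈ J, (B i).Bnd ν C) (hE : 0 ≤ E) (hD1 : ∀ i ∈ J, (B i).s * N (B i).B.l ≤ E)
    (hD2 : ∀ i ∈ J, (B i).s⁻¹ * (‖(B i).B.bet ν‖ * N (B i).B.a) ≤ E)
    (hsep : ∀ i ∈ J, ∀ i' ∈ J, i ≠ i' → R' * n i ≤ n i' ∨ R' * n i' ≤ n i)
    (hrat : ∀ i ∈ J, 4 * rat (B i).B < R') (h1 : 2 * (J.card : ℝ) * (6 * E) ^ q ≤ δ ^ q)
    (h2 : (J.card : ℝ) * (2 * (C * R ^ (1 - s))) ≤ δ) {t : ℝ} (ht : 0 ≤ t) :
    Sml q s δ (WW J B n ν t) := by
  refine ⟨?_, (FS.fsum J (wz_FS hn)).summ (gw s) t, ?_⟩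
  · refine FBle_sep (by linarith) (D := 6 * E) (by positivity) hδ.le J
      (fun i => TT (B i).B (n i)) (fun i _ => TT_card _ _) ?_
      (fun i k => (B i).wS ν (n i) k t + (B i).zS ν (n i) k t) ?_ h1
    · intro i hi i' hi' a ha ha'
      by_contra hne'
      rcases hsep i hi i' hi' hne' with hlt | hlt
      · exact TT_disj (hn i hi) (hn i' hi') hlt (hrat i hi) ha ha'
      · exact TT_disj (hn i' hi') (hn i hi) hlt (hrat i' hi') ha' ha
    · intro i hi a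
      exact bk_wz (B i) hν (hn i hi) (hD1 i hi) (hD2 i hi) ht a
  · refine (tsum_norm_sum_le J (wz_FS hn) (gw s) (gw_nonneg s) t).trans ?_
    have : ∀ i ∈ J, ∑' k, gw s k * ‖(B i).wS ν (n i) k t + (B i).zS ν (n i) k t‖ ≤
        2 * (C * R ^ (1 - s)) := fun i hi =>
      gw_wz (B i) hν hs.le (hn i hi) hR (hRn i hi) (hC i hi).h2 (hC i hi).h3 ht
    refine (Finset.sum_le_sum this).trans ?_
    rw [Finset.sum_const, nsmul_eq_mul]
    exact h2

lemma WW_low {K R : ℕ} (hK : 2 * K < R) (hRn : ∀ i ∈ J, R ≤ n i) (hl : ∀ i ∈ J, N (B i).B.l ≤ K)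
    {k : K3} (hk : N k ≤ K) (t : ℝ) : WW J B n ν t k = 0 := by
  refine Finset.sum_eq_zero fun i hi => ?_
  have := hRn i hi
  show (B i).s • (B i).B.wB ν (n i) k _ + (B i).s⁻¹ • (B i).B.zB ν (n i) k _ = 0
  rw [wB_zero_low (B i).B ν (by omega) hk, zB_zero_low (B i).B ν (by omega) (hl i hi) hk,
    smul_zero, smul_zero, add_zero]

/-- the error of the slow part -/
noncomputable def lo (B : ι → SB) (n : ι → ℕ) (ν : ℝ) (P : ι → Prop) [DecidablePred P] (i : ι)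
    (k : K3) (t : ℝ) : C3 :=
  (B i).B.uB ν (n i) k t - if P i then (B i).B.uB ν (n i) k 0 else 0

variable {P : ι → Prop} [DecidablePred P]

lemma lo_FS : ∀ i ∈ J, FS (S0 J B n) (lo B n ν P i) := by
  intro i hi
  have fu : FS (S0 J B n) ((B i).B.uB ν (n i)) := ((B i).B.uFS ν (n i)).mono (supp_sub hi)
  refine fu.sub (g' := fun k _ => if P i then (B i).B.uB ν (n i) k 0 else 0)
    ⟨fun k => continuous_const, fun k hk t => ?_, fun t => ?_⟩
  · rw [fu.supp k hk]; simp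
  · rw [fu.zero]; simp

lemma lo_bd {C R G : ℝ} (hν : 0 < ν) (hn : ∀ i ∈ J, n i ≠ 0) (hR : 0 < R)
    (hC : ∀ i ∈ J, (B i).Bnd ν C)
    (hG : ∀ i ∈ J, 3 * (cc ν * (FM.sq (B i).B.l * FM.sq (B i).B.a)) ≤ G) {t : ℝ} (ht : 0 ≤ t)
    (h1 : ∀ i ∈ J, P i → (n i : ℝ) ^ 2 * t ≤ 1 / R) (h2 : ∀ i ∈ J, ¬ P i → R ≤ (n i : ℝ) ^ 2 * t) :
    ∑' k, ‖∑ i ∈ J, lo B n ν P i k t‖ ≤ J.card * (G * (1 / R) * C + 1 / (cc ν * R) * C) := by
  refine (tsum_norm_sum_le' J lo_FS t).trans ?_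
  have : ∀ i ∈ J, ∑' k, ‖lo B n ν P i k t‖ ≤ G * (1 / R) * C + 1 / (cc ν * R) * C := by
    intro i hi
    have b1 := (hC i hi).h1
    have hC0 := (hC i hi).C_nonneg
    have g1 := hG i hi
    have hc := cc_pos hν
    have g0 : 0 ≤ 3 * (cc ν * (FM.sq (B i).B.l * FM.sq (B i).B.a)) := by
      have := sq_nonneg' (B i).B.l
      have := sq_nonneg' (B i).B.a
      positivity
    have hG0 := g0.trans g1
    have x1 : 0 ≤ G * (1 / R) * C := by positivity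
    have x2 : 0 ≤ 1 / (cc ν * R) * C := by positivity
    by_cases hji : P i
    · have e : ∀ k, lo B n ν P i k t = (B i).B.uB ν (n i) k t - (B i).B.uB ν (n i) k 0 := fun k => by
        simp only [lo, if_pos hji]
      simp only [e]
      refine (uB_early hν b1 (hn i hi) ht (h1 i hi hji)).trans ?_
      have : 3 * (cc ν * (FM.sq (B i).B.l * FM.sq (B i).B.a)) * (1 / R) * C ≤ G * (1 / R) * C := by
        gcongr
      linarith
    · have e : ∀ k, lo B n ν P i k t = (B i).B.uB ν (n i) k t := fun k => by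
        simp only [lo, if_neg hji, sub_zero]
      simp only [e]
      have := uB_late hν b1 ht hR (h2 i hi hji)
      linarith
  refine (Finset.sum_le_sum this).trans (le_of_eq ?_)
  rw [Finset.sum_const, nsmul_eq_mul]

theorem visit {b M rinf η CV : ℝ} {φ : ℝ → ℝ} {S : Finset K3}
    (h : Setup ν b M rinf η CV φ S (VV J B n ν) (EE J B n ν))
    {q s δ C R E G : ℝ} (hq : 2 < q) (hs : 1 < s) (hδ : 0 < δ)
    (hn : ∀ i ∈ J, n i ≠ 0) {R' : ℕ} (hR : 0 < R) (hRn : ∀ i ∈ J, R ≤ n i)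
    (hC : ∀ i ∈ J, (B i).Bnd ν C) (hE : 0 ≤ E) (hD1 : ∀ i ∈ J, (B i).s * N (B i).B.l ≤ E)
    (hD2 : ∀ i ∈ J, (B i).s⁻¹ * (‖(B i).B.bet ν‖ * N (B i).B.a) ≤ E)
    (hG : ∀ i ∈ J, 3 * (cc ν * (FM.sq (B i).B.l * FM.sq (B i).B.a)) ≤ G)
    (hsep : ∀ i ∈ J, ∀ i' ∈ J, i ≠ i' → R' * n i ≤ n i' ∨ R' * n i' ≤ n i)
    (hrat : ∀ i ∈ J, 4 * rat (B i).B < R') (h1 : 2 * (J.card : ℝ) * (6 * E) ^ q ≤ (δ / 2) ^ q)
    (h2 : (J.card : ℝ) * (2 * (C * R ^ (1 - s))) ≤ δ / 2)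
    (h3 : J.card * (G * (1 / R) * C + 1 / (cc ν * R) * C) ≤ δ / 8) (h4 : 2 * η / rinf ≤ δ / 8)
    {t : ℝ} (ht : 0 ≤ t) (h5 : ∀ i ∈ J, P i → (n i : ℝ) ^ 2 * t ≤ 1 / R)
    (h6 : ∀ i ∈ J, ¬ P i → R ≤ (n i : ℝ) ^ 2 * t) :
    ∃ Y : K3 → C3, (∀ k, VV J B n ν k t + zf ν (VV J B n ν) (EE J B n ν) k t =
      ∑ i ∈ J, (if P i then (B i).B.uB ν (n i) k 0 else 0) + Y k) ∧ Sml q s δ Y := by
  set Q : K3 → C3 := fun k => ∑ i ∈ J, lo B n ν P i k t +
    zf ν (VV J B n ν) (EE J B n ν) k t with hQ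
  have hQ0 : Q 0 = 0 := by
    simp only [hQ]
    have e1 : ∑ i ∈ J, lo B n ν P i 0 t = 0 := Finset.sum_eq_zero fun i hi => (lo_FS i hi).zero t
    have e2 : zf ν (VV J B n ν) (EE J B n ν) 0 t = 0 := by
      have := h.zf_bd 0 ht
      unfold cB at this
      rw [N_eq_zero.2 rfl] at this
      simp at this
      exact this
    rw [e1, e2, add_zero]
  have hQF : ∀ F : Finset K3, ∑ k ∈ F, ‖Q k‖ / N k ≤ δ / 4 := by
    intro F
    have q1 : ∀ k, ‖Q k‖ / N k ≤ ‖∑ i ∈ J, lo B n ν P i k t‖ +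
        FM.mk b k * ‖zf ν (VV J B n ν) (EE J B n ν) k t‖ := by
      intro k
      by_cases hk : k = 0
      · subst hk
        rw [hQ0]
        simp only [norm_zero, zero_div]
        have := mk_nonneg b 0
        positivity
      · have hN : N k ≠ 0 := fun h => hk (N_eq_zero.1 h)
        have hN1 : (1 : ℝ) ≤ N k := by exact_mod_cast Nat.one_le_iff_ne_zero.2 hN
        have hN0 : (0 : ℝ) < N k := by linarith
        have q2 : 1 / (N k : ℝ) ≤ FM.mk b k := by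
          unfold FM.mk
          have := one_le_om h.hb.le k
          gcongr
        simp only [hQ]
        calc ‖∑ i ∈ J, lo B n ν P i k t + zf ν (VV J B n ν) (EE J B n ν) k t‖ / N k ≤
            (‖∑ i ∈ J, lo B n ν P i k t‖ + ‖zf ν (VV J B n ν) (EE J B n ν) k t‖) / N k := by
              gcongr
              exact norm_add_le _ _
          _ = ‖∑ i ∈ J, lo B n ν P i k t‖ / N k +
              1 / N k * ‖zf ν (VV J B n ν) (EE J B n ν) k t‖ := by ring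
          _ ≤ _ := by
              refine add_le_add (div_le_self (norm_nonneg _) hN1) ?_
              gcongr
    refine (Finset.sum_le_sum fun k _ => q1 k).trans ?_
    rw [Finset.sum_add_distrib]
    have q3 := h.zf_small F ht
    have fsl := FS.fsum J (lo_FS (J := J) (B := B) (n := n) (ν := ν) (P := P))
    have q4 : ∑ k ∈ F, ‖∑ i ∈ J, lo B n ν P i k t‖ ≤ ∑' k, ‖∑ i ∈ J, lo B n ν P i k t‖ :=
      (fsl.summ' t).sum_le_tsum F fun k _ => norm_nonneg _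
    have q5 := lo_bd h.hν hn hR hC hG ht h5 h6
    linarith
  have sQ := Sml_of_chi (q := q) (s := s) (by linarith) hs.le (by positivity) hQ0 hQF
  have sW := WW_sml hq hs (half_pos hδ) h.hν hn hR hRn hC hE hD1 hD2 hsep hrat h1 h2 ht
  refine ⟨fun k => Q k + WW J B n ν t k, fun k => ?_, ?_⟩
  · simp only [hQ, WW, lo]
    have e : VV J B n ν k t = ∑ i ∈ J, ((B i).B.uB ν (n i) k t +
        ((B i).wS ν (n i) k t + (B i).zS ν (n i) k t)) := rfl
    rw [e, Finset.sum_add_distrib, Finset.sum_sub_distrib]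
    abel
  · have := sQ.add (by linarith) sW
    have e : 2 * (δ / 4) + δ / 2 = δ := by ring
    rwa [e] at this

end

end Pool.Agent.X97.FN
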